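import Pool.Agent.Helper89.UG.Tower

/-!
Back and forth: complete separable spaces with the extension property are isometric.
-/

set_option autoImplicit false

open Set Metric

namespace Pool.Agent.Helper89.UG

/-- Sets of pairs which preserve distances. -/
def Good {X Y : Type} [MetricSpace X] [MetricSpace Y] (s : Set (X × Y)) : Prop :=
  ∀ p ∈ s, ∀ q ∈ s, dist p.1 q.1 = dist p.2 q.2

section

variable {X Y : Type} [MetricSpace X] [MetricSpace Y]

theorem Good.swap {s : Set (X × Y)} (h : Good s) : Good (Prod.swap ⁻¹' s) :=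
  fun p hp q hq => (h _ hp _ hq).symm

theorem Good.insert {s : Set (X × Y)} (h : Good s) (x : X) (y : Y)
    (hxy : ∀ p ∈ s, dist y p.2 = dist x p.1) : Good (insert (x, y) s) := by
  rintro p (rfl | hp) q (rfl | hq)
  · simp
  · exact (hxy q hq).symm
  · rw [dist_comm, dist_comm p.2]
    exact (hxy p hp).symm
  · exact h p hp q hq

theorem extend_right (hY : EP Y) {s : Set (X × Y)} (hs : s.Finite) (h : Good s) (x : X) :
    ∃ y : Y, Good (insert (x, y) s) := by
  have := hs.to_subtype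
  obtain ⟨y, hy⟩ := hY s (fun i => i.1.2) (fun i => dist x i.1.1) ⟨fun i j => by
      rw [← h i.1 i.2 j.1 j.2, dist_comm i.1.1 j.1.1]
      exact dist_triangle _ _ _, fun i j => by
      rw [← h i.1 i.2 j.1 j.2]
      exact dist_triangle_left _ _ _⟩
  exact ⟨y, h.insert x y fun p hp => hy ⟨p, hp⟩⟩

theorem extend_left (hX : EP X) {s : Set (X × Y)} (hs : s.Finite) (h : Good s) (y : Y) :
    ∃ x : X, Good (insert (x, y) s) := by
  have hs' : (Prod.swap ⁻¹' s : Set (Y × X)).Finite := hs.preimage Prod.swap_injective.injOn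
  obtain ⟨x, hx⟩ := extend_right hX hs' h.swap y
  refine ⟨x, h.insert x y fun p hp => ?_⟩
  have := hx (y, x) (mem_insert _ _) (p.2, p.1) (mem_insert_of_mem _ hp)
  exact this

theorem exists_of_good [CompleteSpace X] [CompleteSpace Y] {Q : Set (X × Y)} (h : Good Q)
    (hc : IsClosed Q) (h1 : Dense (Prod.fst '' Q)) (h2 : Dense (Prod.snd '' Q)) :
    ∃ e : X ≃ᵢ Y, ∀ p ∈ Q, e p.1 = p.2 := by
  have := hc.completeSpace_coe
  have i1 : Isometry (fun p : Q => p.1.1) := Isometry.of_dist_eq fun p q => by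
    rw [Subtype.dist_eq, Prod.dist_eq, ← h p.1 p.2 q.1 q.2, max_self]
  have i2 : Isometry (fun p : Q => p.1.2) := Isometry.of_dist_eq fun p q => by
    rw [Subtype.dist_eq, Prod.dist_eq, h p.1 p.2 q.1 q.2, max_self]
  have s1 : Function.Surjective (fun p : Q => p.1.1) := by
    rw [← range_eq_univ, ← i1.isClosedEmbedding.isClosed_range.closure_eq, ← dense_iff_closure_eq]
    refine h1.mono ?_
    rintro _ ⟨p, hp, rfl⟩
    exact ⟨⟨p, hp⟩, rfl⟩
  have s2 : Function.Surjective (fun p : Q => p.1.2) := by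
    rw [← range_eq_univ, ← i2.isClosedEmbedding.isClosed_range.closure_eq, ← dense_iff_closure_eq]
    refine h2.mono ?_
    rintro _ ⟨p, hp, rfl⟩
    exact ⟨⟨p, hp⟩, rfl⟩
  let e1 : Q ≃ᵢ X := ⟨Equiv.ofBijective _ ⟨i1.injective, s1⟩, i1⟩
  let e2 : Q ≃ᵢ Y := ⟨Equiv.ofBijective _ ⟨i2.injective, s2⟩, i2⟩
  refine ⟨e1.symm.trans e2, fun p hp => ?_⟩
  have : e1.symm p.1 = ⟨p, hp⟩ := by
    rw [IsometryEquiv.symm_apply_eq]
    rfl
  show e2 (e1.symm p.1) = p.2
  rw [this]
  rfl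

/-- Finite partial isometries between complete separable spaces with the extension property
extend to isometries onto. -/
theorem exists_equiv [CompleteSpace X] [CompleteSpace Y] [TopologicalSpace.SeparableSpace X]
    [TopologicalSpace.SeparableSpace Y] (hX : EP X) (hY : EP Y) {s : Set (X × Y)}
    (hs : s.Finite) (h : Good s) : ∃ e : X ≃ᵢ Y, ∀ p ∈ s, e p.1 = p.2 := by
  obtain ⟨x0, -⟩ := hX Empty (fun i => i.elim) (fun i => i.elim) ⟨fun i => i.elim, fun i => i.elim⟩
  obtain ⟨y0, -⟩ := hY Empty (fun i => i.elim) (fun i => i.elim) ⟨fun i => i.elim, fun i => i.elim⟩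
  have : Nonempty X := ⟨x0⟩
  have : Nonempty Y := ⟨y0⟩
  let u := TopologicalSpace.denseSeq X
  let v := TopologicalSpace.denseSeq Y
  let P : Type := {s : Set (X × Y) // s.Finite ∧ Good s}
  have step : ∀ (n : ℕ) (s : P), ∃ t : P, s.1 ⊆ t.1 ∧ u n ∈ Prod.fst '' t.1 ∧
      v n ∈ Prod.snd '' t.1 := by
    intro n s
    obtain ⟨y, hy⟩ := extend_right hY s.2.1 s.2.2 (u n)
    obtain ⟨x, hx⟩ := extend_left hX (s.2.1.insert (u n, y)) hy (v n)
    refine ⟨⟨_, (s.2.1.insert (u n, y)).insert (x, v n), hx⟩, ?_, ?_, ?_⟩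
    · exact (subset_insert _ _).trans (subset_insert _ _)
    · exact ⟨(u n, y), mem_insert_of_mem _ (mem_insert _ _), rfl⟩
    · exact ⟨(x, v n), mem_insert _ _, rfl⟩
  choose g hg1 hg2 hg3 using step
  let ps : ℕ → P := fun n => Nat.rec ⟨s, hs, h⟩ (fun n t => g n t) n
  have hmono : Monotone fun n => (ps n).1 := monotone_nat_of_le_succ fun n => hg1 n (ps n)
  let Q : Set (X × Y) := closure (⋃ n, (ps n).1)
  have hgood0 : Good (⋃ n, (ps n).1) := by
    intro p hp q hq
    obtain ⟨n, hn⟩ := mem_iUnion.1 hp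
    obtain ⟨m, hm⟩ := mem_iUnion.1 hq
    exact (ps (max n m)).2.2 p (hmono (le_max_left n m) hn) q (hmono (le_max_right n m) hm)
  have hgood : Good Q := by
    have hcl : IsClosed {z : (X × Y) × (X × Y) | dist z.1.1 z.2.1 = dist z.1.2 z.2.2} :=
      isClosed_eq (by fun_prop) (by fun_prop)
    intro p hp q hq
    have hmem : (p, q) ∈ closure ((⋃ n, (ps n).1) ×ˢ (⋃ n, (ps n).1)) := by
      rw [closure_prod_eq]
      exact ⟨hp, hq⟩
    have hsub : ((⋃ n, (ps n).1) ×ˢ (⋃ n, (ps n).1)) ⊆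
        {z : (X × Y) × (X × Y) | dist z.1.1 z.2.1 = dist z.1.2 z.2.2} :=
      fun z hz => hgood0 z.1 hz.1 z.2 hz.2
    exact closure_minimal hsub hcl hmem
  have hd1 : Dense (Prod.fst '' Q) := by
    refine (TopologicalSpace.denseRange_denseSeq X).mono ?_
    rintro _ ⟨n, rfl⟩
    obtain ⟨p, hp, hp'⟩ := hg2 n (ps n)
    exact ⟨p, subset_closure (mem_iUnion.2 ⟨n + 1, hp⟩), hp'⟩
  have hd2 : Dense (Prod.snd '' Q) := by
    refine (TopologicalSpace.denseRange_denseSeq Y).mono ?_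
    rintro _ ⟨n, rfl⟩
    obtain ⟨p, hp, hp'⟩ := hg3 n (ps n)
    exact ⟨p, subset_closure (mem_iUnion.2 ⟨n + 1, hp⟩), hp'⟩
  obtain ⟨e, he⟩ := exists_of_good hgood isClosed_closure hd1 hd2
  exact ⟨e, fun p hp => he p (subset_closure (mem_iUnion.2 ⟨0, hp⟩))⟩

end

end Pool.Agent.Helper89.UG
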