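import Mathlib

/-!
The Gromov-Hausdorff distance of Polish metric spaces, coded by metrics on the natural numbers,
and the orbit pseudometric of the action of the isometry group of the Urysohn space on the space
of closed sets with the Hausdorff distance.
-/

set_option autoImplicit false

open Set Metric TopologicalSpace
open scoped ENNReal

namespace Pool.Agent.Helper89.UG

/-! ### Reducibility -/

/-- `BorelUnif ρX ρY`: some Borel map `F` from `X` to `Y` satisfies: for every `ε > 0` there are
`δX, δY > 0` such that `ρX x y < δX` implies `ρY (F x) (F y) < ε`, and `ρY (F x) (F y) < δY` implies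
`ρX x y < ε`. -/
def BorelUnif {X Y : Type} [MeasurableSpace X] [MeasurableSpace Y] (ρX : X → X → ℝ≥0∞)
    (ρY : Y → Y → ℝ≥0∞) : Prop :=
  ∃ F : X → Y, Measurable F ∧ ∀ ε : ℝ, 0 < ε → ∃ δX δY : ℝ, 0 < δX ∧ 0 < δY ∧ ∀ x y,
    (ρX x y < ENNReal.ofReal δX → ρY (F x) (F y) < ENNReal.ofReal ε) ∧
    (ρY (F x) (F y) < ENNReal.ofReal δY → ρX x y < ENNReal.ofReal ε)

/-! ### The Gromov-Hausdorff distance -/

/-- `f` is a metric on the natural numbers. -/
def IsMetric (f : ℕ → ℕ → ℝ) : Prop :=
  (∀ i, f i i = 0) ∧ (∀ i j, f i j = 0 → i = j) ∧ (∀ i j, f i j = f j i) ∧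
    ∀ i j k, f i k ≤ f i j + f j k

/-- The space of all metrics on the natural numbers. -/
def Met : Type := {f : ℕ → ℕ → ℝ // IsMetric f}

/-- The topology inherited from the product topology. -/
instance : TopologicalSpace Met := instTopologicalSpaceSubtype

/-- The Borel sets of this topology. -/
instance : MeasurableSpace Met := borel Met

/-- The natural numbers with the metric `f`. -/
def Pt (_ : Met) : Type := ℕ

instance (f : Met) : MetricSpace (Pt f) where
  dist i j := f.1 i j
  dist_self i := f.2.1 i
  dist_comm i j := f.2.2.2.1 i j
  dist_triangle i j k := f.2.2.2.2 i j k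
  eq_of_dist_eq_zero h := f.2.2.1 _ _ h

/-- The Polish metric space coded by `f`: the completion of the natural numbers with the
metric `f`. -/
abbrev Sp (f : Met) : Type := UniformSpace.Completion (Pt f)

/-- The Gromov-Hausdorff distance of two metric spaces: the infimum of the Hausdorff distances
between isometric copies in a common metric space. -/
noncomputable def ghDist (X Y : Type) [MetricSpace X] [MetricSpace Y] : ℝ≥0∞ :=
  ⨅ (Z : Type) (_ : MetricSpace Z) (φ : X → Z) (ψ : Y → Z) (_ : Isometry φ) (_ : Isometry ψ),
    hausdorffEDist (range φ) (range ψ)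

/-- The pseudometric `ρ_GH` on the metrics on the natural numbers. -/
noncomputable def rhoGH (f g : Met) : ℝ≥0∞ := ghDist (Sp f) (Sp g)

/-! ### The Urysohn space -/

/-- `U` is the Urysohn universal Polish metric space: it is complete and separable, it contains an
isometric copy of every separable metric space, and every isometric map from a finite subset into
`U` extends to an isometry of `U` onto `U`. -/
structure IsUrysohn (U : Type) [MetricSpace U] : Prop where
  complete : CompleteSpace U
  separable : SeparableSpace U
  universal : ∀ (X : Type) [MetricSpace X] [SeparableSpace X], ∃ f : X → U, Isometry f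
  homogeneous : ∀ s : Set U, s.Finite → ∀ f : s → U, Isometry f →
    ∃ g : U ≃ᵢ U, ∀ x : s, g x = f x

/-- The space of the closed subsets of `U`. -/
def Clo (U : Type) [TopologicalSpace U] : Type := {A : Set U // IsClosed A}

/-- The Effros Borel structure: the σ-algebra generated by the sets of all closed sets which meet a
given open set. -/
instance (U : Type) [TopologicalSpace U] : MeasurableSpace (Clo U) :=
  MeasurableSpace.generateFrom
    {S | ∃ O : Set U, IsOpen O ∧ S = {A : Clo U | (A.1 ∩ O).Nonempty}}

/-- The orbit pseudometric of the action of the isometry group on the closed sets with the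
Hausdorff distance. -/
noncomputable def rhoU (U : Type) [MetricSpace U] (A B : Clo U) : ℝ≥0∞ :=
  ⨅ (g : U ≃ᵢ U) (h : U ≃ᵢ U), hausdorffEDist (g '' A.1) (h '' B.1)

end Pool.Agent.Helper89.UG
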