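import Pool.Agent.Helper89.UG.Defs

/-!
The Gromov-Hausdorff distance and correspondences.
-/

set_option autoImplicit false

open Set Metric TopologicalSpace UniformSpace
open scoped ENNReal

namespace Pool.Agent.Helper89.UG

theorem ghDist_lt_iff {X Y : Type} [MetricSpace X] [MetricSpace Y] {r : ℝ≥0∞}
    (h : ghDist X Y < r) : ∃ (Z : Type) (_ : MetricSpace Z) (φ : X → Z) (ψ : Y → Z),
      Isometry φ ∧ Isometry ψ ∧ hausdorffEDist (range φ) (range ψ) < r := by
  unfold ghDist at h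
  simp only [iInf_lt_iff] at h
  obtain ⟨Z, i, φ, ψ, h1, h2, h3⟩ := h
  exact ⟨Z, i, φ, ψ, h1, h2, h3⟩

theorem ghDist_le {X Y Z : Type} [MetricSpace X] [MetricSpace Y] [i : MetricSpace Z] {r : ℝ≥0∞}
    (φ : X → Z) (ψ : Y → Z) (h1 : Isometry φ) (h2 : Isometry ψ)
    (h : hausdorffEDist (range φ) (range ψ) ≤ r) : ghDist X Y ≤ r := by
  unfold ghDist
  exact iInf_le_of_le Z (iInf_le_of_le i (iInf_le_of_le φ (iInf_le_of_le ψ
    (iInf_le_of_le h1 (iInf_le_of_le h2 h)))))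

/-- The point with the number `i`. -/
def pt (f : Met) (i : ℕ) : Pt f := i

theorem pt_surj (f : Met) (x : Pt f) : ∃ i, x = pt f i := ⟨x, rfl⟩

/-- The point with the number `i` in the completion. -/
def sp (f : Met) (i : ℕ) : Sp f := (pt f i : Completion (Pt f))

theorem dist_sp (f : Met) (i j : ℕ) : dist (sp f i) (sp f j) = f.1 i j := by
  unfold sp
  rw [Completion.dist_eq]
  rfl

theorem exists_near (f : Met) (q : Sp f) {ε : ℝ} (hε : 0 < ε) : ∃ i, dist q (sp f i) < ε := by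
  obtain ⟨_, ⟨x, rfl⟩, hx⟩ := Metric.mem_closure_iff.1
      ((Completion.denseRange_coe (α := Pt f)) q) _ hε
  obtain ⟨i, hi⟩ := pt_surj f x
  rw [hi] at hx
  exact ⟨i, hx⟩

/-- Small Gromov-Hausdorff distance gives a correspondence of the codes. -/
theorem exists_corr {f g : Met} {δ : ℝ} (h : rhoGH f g < ENNReal.ofReal δ) :
    ∃ R : ℕ → ℕ → Prop, (∀ i, ∃ j, R i j) ∧ (∀ j, ∃ i, R i j) ∧
      ∀ i j i' j', R i j → R i' j' → |f.1 i i' - g.1 j j'| < 2 * δ := by
  obtain ⟨Z, inst, φ, ψ, h1, h2, h3⟩ := ghDist_lt_iff h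
  refine ⟨fun i j => dist (φ (sp f i)) (ψ (sp g j)) < δ,
    fun i => ?_, fun j => ?_, fun i j i' j' hij hij' => ?_⟩
  · obtain ⟨_, ⟨q, rfl⟩, hq⟩ := exists_edist_lt_of_hausdorffEDist_lt
      (mem_range_self (sp f i)) h3
    rw [edist_lt_ofReal] at hq
    obtain ⟨j, hj⟩ := exists_near g q (sub_pos.2 hq)
    refine ⟨j, ?_⟩
    have e1 := dist_triangle (φ (sp f i)) (ψ q) (ψ (sp g j))
    rw [h2.dist_eq] at e1
    exact e1.trans_lt (by linarith)
  · rw [hausdorffEDist_comm] at h3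
    obtain ⟨_, ⟨q, rfl⟩, hq⟩ := exists_edist_lt_of_hausdorffEDist_lt
      (mem_range_self (sp g j)) h3
    rw [edist_lt_ofReal] at hq
    obtain ⟨i, hi⟩ := exists_near f q (sub_pos.2 hq)
    refine ⟨i, ?_⟩
    have e1 := dist_triangle (φ (sp f i)) (φ q) (ψ (sp g j))
    rw [h1.dist_eq] at e1
    have e2 := dist_comm q (sp f i)
    have e3 := dist_comm (φ q) (ψ (sp g j))
    linarith
  · have e1 : dist (φ (sp f i)) (φ (sp f i')) = f.1 i i' := by
      rw [h1.dist_eq, dist_sp]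
    have e2 : dist (ψ (sp g j)) (ψ (sp g j')) = g.1 j j' := by
      rw [h2.dist_eq, dist_sp]
    have t1 := dist_triangle4 (φ (sp f i)) (ψ (sp g j)) (ψ (sp g j')) (φ (sp f i'))
    have t2 := dist_triangle4 (ψ (sp g j)) (φ (sp f i)) (φ (sp f i')) (ψ (sp g j'))
    have c1 := dist_comm (φ (sp f i)) (ψ (sp g j))
    have c2 := dist_comm (φ (sp f i')) (ψ (sp g j'))
    rw [e1, e2] at t1 t2
    rw [abs_lt]
    constructor <;> linarith

/-- A correspondence of the codes gives a bound for the Gromov-Hausdorff distance. -/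
theorem rhoGH_le_of_corr {f g : Met} {δ : ℝ} (hδ : 0 < δ) (R : ℕ → ℕ → Prop)
    (h1 : ∀ i, ∃ j, R i j) (h2 : ∀ j, ∃ i, R i j)
    (h3 : ∀ i j i' j', R i j → R i' j' → |f.1 i i' - g.1 j j'| ≤ 2 * δ) :
    rhoGH f g ≤ ENNReal.ofReal δ := by
  let Z : Type := {p : ℕ × ℕ // R p.1 p.2}
  obtain ⟨j0, hj0⟩ := h1 0
  have : Nonempty Z := ⟨⟨(0, j0), hj0⟩⟩
  let Φ : Z → Pt f := fun p => pt f p.1.1
  let Ψ : Z → Pt g := fun p => pt g p.1.2
  let inst : MetricSpace (Pt f ⊕ Pt g) := glueMetricApprox Φ Ψ δ hδ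
    (fun p q => h3 _ _ _ _ p.2 q.2)
  have il : Isometry (Sum.inl : Pt f → Pt f ⊕ Pt g) := Isometry.of_dist_eq fun x y => rfl
  have ir : Isometry (Sum.inr : Pt g → Pt f ⊕ Pt g) := Isometry.of_dist_eq fun x y => rfl
  have hglue : ∀ i j, R i j → dist (Sum.inl (pt f i) : Pt f ⊕ Pt g) (Sum.inr (pt g j)) = δ :=
    fun i j h => glueDist_glued_points Φ Ψ δ ⟨(i, j), h⟩
  let φ : Sp f → Completion (Pt f ⊕ Pt g) := Completion.map Sum.inl
  let ψ : Sp g → Completion (Pt f ⊕ Pt g) := Completion.map Sum.inr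
  have iφ : Isometry φ := il.completion_map
  have iψ : Isometry ψ := ir.completion_map
  have cφ : ∀ i, φ (sp f i) = ((Sum.inl (pt f i) : Pt f ⊕ Pt g) : Completion (Pt f ⊕ Pt g)) :=
    fun i => Completion.map_coe il.uniformContinuous (pt f i)
  have cψ : ∀ i, ψ (sp g i) = ((Sum.inr (pt g i) : Pt f ⊕ Pt g) : Completion (Pt f ⊕ Pt g)) :=
    fun i => Completion.map_coe ir.uniformContinuous (pt g i)
  refine ghDist_le φ ψ iφ iψ (hausdorffEDist_le_of_infEDist ?_ ?_)
  · rintro _ ⟨q, rfl⟩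
    refine Completion.induction_on q ?_ fun x => ?_
    · exact isClosed_le (continuous_infEDist.comp iφ.continuous) continuous_const
    · obtain ⟨i, hi⟩ := pt_surj f x
      rw [hi]
      obtain ⟨j, hj⟩ := h1 i
      refine (infEDist_le_edist_of_mem (mem_range_self (sp g j))).trans ?_
      change edist (φ (sp f i)) _ ≤ _
      rw [cφ, cψ, Completion.edist_eq, edist_dist, hglue i j hj]
  · rintro _ ⟨q, rfl⟩
    refine Completion.induction_on q ?_ fun y => ?_
    · exact isClosed_le (continuous_infEDist.comp iψ.continuous) continuous_const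
    · obtain ⟨j, hj⟩ := pt_surj g y
      rw [hj]
      obtain ⟨i, hi⟩ := h2 j
      refine (infEDist_le_edist_of_mem (mem_range_self (sp f i))).trans ?_
      change edist (ψ (sp g j)) _ ≤ _
      rw [cφ, cψ, Completion.edist_eq, edist_comm, edist_dist, hglue i j hi]

/-! ### The orbit pseudometric -/

theorem exists_of_rhoU_lt {U : Type} [MetricSpace U] {A B : Clo U} {r : ℝ≥0∞}
    (h : rhoU U A B < r) : ∃ e : U ≃ᵢ U, hausdorffEDist (e '' A.1) B.1 < r := by
  unfold rhoU at h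
  simp only [iInf_lt_iff] at h
  obtain ⟨g, k, h⟩ := h
  refine ⟨g.trans k.symm, ?_⟩
  have e1 : (g.trans k.symm) '' A.1 = k.symm '' (g '' A.1) := by
    rw [← image_comp]
    rfl
  have e2 : B.1 = k.symm '' (k '' B.1) := by
    rw [← image_comp]
    have : (k.symm ∘ k : U → U) = id := by
      funext x
      simp
    rw [this, image_id]
  rw [e1, e2, hausdorffEDist_image k.symm.isometry]
  exact h

theorem rhoU_le {U : Type} [MetricSpace U] {A B : Clo U} (e : U ≃ᵢ U) :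
    rhoU U A B ≤ hausdorffEDist (e '' A.1) B.1 := by
  unfold rhoU
  refine iInf_le_of_le e (iInf_le_of_le (IsometryEquiv.refl U) ?_)
  have : (IsometryEquiv.refl U : U → U) = id := rfl
  rw [this, image_id]

end Pool.Agent.Helper89.UG
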