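import Pool.Agent.Helper89.UG.Defs
import Pool.Agent.Helper89.UG.BackForth

/-!
The Urysohn space: existence, the extension property, invariant copies of separable spaces.
-/

set_option autoImplicit false

open Set Metric TopologicalSpace UniformSpace

namespace Pool.Agent.Helper89.UG

/-- The completion of the tower. -/
abbrev U0 (X : Type) [MetricSpace X] : Type := Completion (Lim X)

section

variable {X : Type} [MetricSpace X]

theorem ep_U0 [Nonempty X] : EP (U0 X) := (aep_completion ep_lim).ep

theorem separable_U0 [SeparableSpace X] : SeparableSpace (U0 X) := by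
  have := separable_lim (X := X)
  infer_instance

/-- The embedding of `X`. -/
noncomputable def emb0 (x : X) : U0 X := ((emb (X := X) 0 x : Lim X) : Completion (Lim X))

theorem isometry_emb0 : Isometry (emb0 (X := X)) := by
  refine Isometry.of_dist_eq fun x y => ?_
  unfold emb0
  rw [Completion.dist_eq]
  exact dist_emb 0 x y

/-- Isometries of `X` extend to the completion of the tower. -/
theorem exists_act (T : X ≃ᵢ X) : ∃ g : U0 X ≃ᵢ U0 X, ∀ x, g (emb0 x) = emb0 (T x) := by
  have h1 := isometry_actLim T
  have h2 := isometry_actLim T.symm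
  let a : U0 X → U0 X := Completion.map (actLim T)
  let b : U0 X → U0 X := Completion.map (actLim T.symm)
  have ia : Isometry a := h1.completion_map
  have ib : Isometry b := h2.completion_map
  have ca : ∀ x : Lim X, a x = (actLim T x : Completion (Lim X)) :=
    fun x => Completion.map_coe h1.uniformContinuous x
  have cb : ∀ x : Lim X, b x = (actLim T.symm x : Completion (Lim X)) :=
    fun x => Completion.map_coe h2.uniformContinuous x
  have hba : ∀ q, b (a q) = q := by
    intro q
    refine Completion.induction_on q ?_ fun x => ?_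
    · exact isClosed_eq (ib.continuous.comp ia.continuous) continuous_id
    · rw [ca, cb, actLim_symm]
  have hab : ∀ q, a (b q) = q := by
    intro q
    refine Completion.induction_on q ?_ fun x => ?_
    · exact isClosed_eq (ia.continuous.comp ib.continuous) continuous_id
    · rw [cb, ca]
      have := actLim_symm T.symm x
      rw [IsometryEquiv.symm_symm] at this
      rw [this]
  refine ⟨⟨⟨a, b, hba, hab⟩, ia⟩, fun x => ?_⟩
  exact ca _

end

/-- The Urysohn space has the extension property. -/
theorem IsUrysohn.ep {U : Type} [MetricSpace U] (h : IsUrysohn U) : EP U := by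
  intro ι _ x φ hk
  have := h.complete
  have := h.separable
  obtain ⟨f0, -⟩ := h.universal PUnit
  have : Nonempty U := ⟨f0 PUnit.unit⟩
  have hs : SeparableSpace (U0 U) := separable_U0
  obtain ⟨z0, hz0⟩ := ep_U0 (X := U) ι (fun i => emb0 (x i)) φ
    ⟨fun i j => by rw [isometry_emb0.dist_eq]; exact hk.1 i j,
      fun i j => by rw [isometry_emb0.dist_eq]; exact hk.2 i j⟩
  obtain ⟨J, hJ⟩ := h.universal (U0 U)
  obtain ⟨g, hg⟩ := h.homogeneous (range x) (finite_range x) (fun y => J (emb0 y.1))
    ((hJ.comp isometry_emb0).comp isometry_subtype_coe)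
  refine ⟨g.symm (J z0), fun i => ?_⟩
  have h1 := hg ⟨x i, mem_range_self i⟩
  rw [← g.dist_eq, g.apply_symm_apply]
  have h2 : g (x i) = J (emb0 (x i)) := h1
  rw [h2, hJ.dist_eq, hz0]

/-- There is a Urysohn space. -/
theorem exists_isUrysohn : ∃ (U : Type) (_ : MetricSpace U), IsUrysohn U := by
  have hs : SeparableSpace (U0 PUnit) := separable_U0
  refine ⟨U0 PUnit, inferInstance, inferInstance, hs, ?_, ?_⟩
  · intro X _ _
    rcases isEmpty_or_nonempty X with hX | hX
    · exact ⟨fun x => hX.elim x, fun x => hX.elim x⟩
    · have hs' : SeparableSpace (U0 X) := separable_U0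
      obtain ⟨e, -⟩ := exists_equiv (ep_U0 (X := X)) (ep_U0 (X := PUnit)) finite_empty
        (fun p hp => absurd hp (notMem_empty p))
      exact ⟨fun x => e (emb0 x), e.isometry.comp isometry_emb0⟩
  · intro s hs1 f hf
    have : Finite s := hs1
    obtain ⟨e, he⟩ := exists_equiv (ep_U0 (X := PUnit)) (ep_U0 (X := PUnit))
      (finite_range fun x : s => ((x : U0 PUnit), f x)) (by
        rintro _ ⟨x, rfl⟩ _ ⟨y, rfl⟩
        exact (hf.dist_eq x y).symm)
    exact ⟨e, fun x => he _ (mem_range_self x)⟩

/-- Every nonempty separable metric space has an isometric copy in the Urysohn space such that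
its isometries extend. -/
theorem IsUrysohn.exists_copy {U : Type} [MetricSpace U] (h : IsUrysohn U) (X : Type)
    [MetricSpace X] [SeparableSpace X] [Nonempty X] :
    ∃ j : X → U, Isometry j ∧ ∀ T : X ≃ᵢ X, ∃ g : U ≃ᵢ U, ∀ x, g (j x) = j (T x) := by
  have := h.complete
  have := h.separable
  have hs' : SeparableSpace (U0 X) := separable_U0
  obtain ⟨e, -⟩ := exists_equiv (ep_U0 (X := X)) h.ep finite_empty
    (fun p hp => absurd hp (notMem_empty p))
  refine ⟨fun x => e (emb0 x), e.isometry.comp isometry_emb0, fun T => ?_⟩
  obtain ⟨g, hg⟩ := exists_act T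
  refine ⟨(e.symm.trans g).trans e, fun x => ?_⟩
  simp [hg]

end Pool.Agent.Helper89.UG
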