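import Pool.Agent.Helper89.UG.GH
import Pool.Agent.Helper89.UG.Ury

/-!
Coding of metrics on the natural numbers by closed subsets of the Urysohn space.
-/

set_option autoImplicit false

open Set Metric TopologicalSpace
open scoped ENNReal NNReal

namespace Pool.Agent.Helper89.UG

abbrev V : Type := ℕ × ℕ
abbrev W : Type := V ⊕ (V × V)

/-- Distances of the base points. -/
noncomputable def w : W → W → ℝ
  | .inl a, .inl b => if a = b then 0 else 5
  | .inr p, .inr q => if p = q then 0 else 6
  | .inl c, .inr p => if c = p.1 then 7 else if c = p.2 then 8 else 9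
  | .inr p, .inl c => if c = p.1 then 7 else if c = p.2 then 8 else 9

theorem w_comm (p q : W) : w p q = w q p := by
  rcases p with a | p <;> rcases q with b | q <;> simp only [w, eq_comm]

theorem w_bounds {p q : W} (h : p ≠ q) : 5 ≤ w p q ∧ w p q ≤ 10 := by
  rcases p with a | p <;> rcases q with b | q <;> simp only [w]
  · have : a ≠ b := fun e => h (by rw [e])
    rw [if_neg this]
    norm_num
  · split_ifs <;> norm_num
  · split_ifs <;> norm_num
  · have : p ≠ q := fun e => h (by rw [e])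
    rw [if_neg this]
    norm_num

/-- The hedgehog: rays attached to all base points. -/
structure Hg where
  p : W
  t : ℝ≥0

noncomputable def hd (x y : Hg) : ℝ := if x.p = y.p then |(x.t : ℝ) - y.t| else x.t + w x.p y.p + y.t

theorem hd_same (p : W) (s t : ℝ≥0) : hd ⟨p, s⟩ ⟨p, t⟩ = |(s : ℝ) - t| := by simp [hd]

theorem hd_ne {p q : W} (h : p ≠ q) (s t : ℝ≥0) : hd ⟨p, s⟩ ⟨q, t⟩ = s + w p q + t := by
  simp [hd, h]

noncomputable instance : MetricSpace Hg where
  dist := hd
  dist_self x := by simp [hd]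
  dist_comm x y := by
    obtain ⟨p, s⟩ := x
    obtain ⟨q, t⟩ := y
    by_cases h : p = q
    · subst h
      rw [hd_same, hd_same, abs_sub_comm]
    · rw [hd_ne h, hd_ne (Ne.symm h), w_comm]
      ring
  dist_triangle x y z := by
    obtain ⟨p, s⟩ := x
    obtain ⟨q, t⟩ := y
    obtain ⟨r, u⟩ := z
    have hs := s.2
    have ht := t.2
    have hu := u.2
    have hs' : (0 : ℝ) ≤ s := hs
    have ht' : (0 : ℝ) ≤ t := ht
    have hu' : (0 : ℝ) ≤ u := hu
    by_cases h1 : p = q
    · subst h1
      by_cases h2 : p = r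
      · subst h2
        rw [hd_same, hd_same, hd_same]
        exact abs_sub_le _ _ _
      · rw [hd_ne h2, hd_ne h2, hd_same]
        linarith [le_abs_self ((s : ℝ) - t)]
    · by_cases h2 : q = r
      · subst h2
        rw [hd_ne h1, hd_ne h1, hd_same]
        linarith [neg_abs_le ((t : ℝ) - u)]
      · by_cases h3 : p = r
        · subst h3
          rw [hd_same, hd_ne h1, hd_ne h2]
          have b1 := (w_bounds h1).1
          have b2 := (w_bounds h2).1
          rw [abs_le]
          constructor <;> linarith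
        · rw [hd_ne h1, hd_ne h2, hd_ne h3]
          have b1 := (w_bounds h1).1
          have b2 := (w_bounds h2).1
          have b3 := (w_bounds h3).2
          linarith
  eq_of_dist_eq_zero {x y} h := by
    obtain ⟨p, s⟩ := x
    obtain ⟨q, t⟩ := y
    have hs' : (0 : ℝ) ≤ s := s.2
    have ht' : (0 : ℝ) ≤ t := t.2
    by_cases h1 : p = q
    · subst h1
      change hd _ _ = 0 at h
      rw [hd_same, abs_eq_zero, sub_eq_zero] at h
      rw [NNReal.coe_injective h]
    · change hd _ _ = 0 at h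
      rw [hd_ne h1] at h
      have b1 := (w_bounds h1).1
      linarith

theorem dist_same (p : W) (s t : ℝ≥0) : dist (⟨p, s⟩ : Hg) ⟨p, t⟩ = |(s : ℝ) - t| := hd_same p s t

theorem dist_ne {p q : W} (h : p ≠ q) (s t : ℝ≥0) :
    dist (⟨p, s⟩ : Hg) ⟨q, t⟩ = s + w p q + t := hd_ne h s t

instance : Nonempty Hg := ⟨⟨.inl (0, 0), 0⟩⟩

theorem isometry_ray (p : W) : Isometry (fun t : ℝ≥0 => (⟨p, t⟩ : Hg)) :=
  Isometry.of_dist_eq fun s t => by
    rw [dist_same, NNReal.dist_eq]

instance : SeparableSpace Hg := by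
  have h : IsSeparable (⋃ p : W, range fun t : ℝ≥0 => (⟨p, t⟩ : Hg)) :=
    IsSeparable.iUnion fun p => isSeparable_range (isometry_ray p).continuous
  have huniv : (⋃ p : W, range fun t : ℝ≥0 => (⟨p, t⟩ : Hg)) = univ :=
    eq_univ_of_forall fun x => mem_iUnion.2 ⟨x.p, x.t, rfl⟩
  rw [huniv] at h
  exact isSeparable_univ_iff.1 h

/-- The action of permutations on the base points. -/
def actW (π : V ≃ V) : W ≃ W := Equiv.sumCongr π (Equiv.prodCongr π π)

theorem w_act (π : V ≃ V) (p q : W) : w (actW π p) (actW π q) = w p q := by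
  rcases p with a | p <;> rcases q with b | q <;>
    simp [actW, w, Prod.ext_iff]

/-- The action of permutations on the hedgehog. -/
noncomputable def actH (π : V ≃ V) : Hg ≃ᵢ Hg where
  toFun x := ⟨actW π x.p, x.t⟩
  invFun x := ⟨(actW π).symm x.p, x.t⟩
  left_inv x := by simp
  right_inv x := by simp
  isometry_toFun := Isometry.of_dist_eq fun x y => by
    obtain ⟨p, s⟩ := x
    obtain ⟨q, t⟩ := y
    by_cases h : p = q
    · subst h
      rw [dist_same, dist_same]
    · have h' : actW π p ≠ actW π q := fun e => h ((actW π).injective e)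
      rw [dist_ne h, dist_ne h', w_act]

theorem actH_inl (π : V ≃ V) (a : V) (t : ℝ≥0) : actH π ⟨.inl a, t⟩ = ⟨.inl (π a), t⟩ := rfl

theorem actH_inr (π : V ≃ V) (a b : V) (t : ℝ≥0) :
    actH π ⟨.inr (a, b), t⟩ = ⟨.inr (π a, π b), t⟩ := rfl

/-! ### The points of a metric -/

theorem Met.nonneg (f : Met) (i j : ℕ) : 0 ≤ f.1 i j := by
  have h := f.2.2.2.2 i j i
  rw [f.2.1, f.2.2.2.1 j i] at h
  linarith

/-- the parameter of the pair `a, b` -/
noncomputable def tv (f : Met) (a b : V) : ℝ≥0 := (f.1 a.1 b.1).toNNReal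

theorem coe_tv (f : Met) (a b : V) : (tv f a b : ℝ) = f.1 a.1 b.1 :=
  Real.coe_toNNReal _ (f.nonneg _ _)

/-- the point of `a` -/
def vp (a : V) : Hg := ⟨.inl a, 0⟩

/-- the point of the pair `a, b` -/
noncomputable def pp (f : Met) (a b : V) : Hg := ⟨.inr (a, b), tv f a b⟩

/-- The set of points which codes the metric `f`. -/
def pts (f : Met) : Set Hg := {x | (∃ a, x = vp a) ∨ ∃ a b, x = pp f a b}

theorem vp_mem (f : Met) (a : V) : vp a ∈ pts f := Or.inl ⟨a, rfl⟩

theorem pp_mem (f : Met) (a b : V) : pp f a b ∈ pts f := Or.inr ⟨a, b, rfl⟩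

theorem dist_vp {a b : V} (h : a ≠ b) : dist (vp a) (vp b) = 5 := by
  unfold vp
  rw [dist_ne (fun e => h (Sum.inl.inj e))]
  simp [w, h]

theorem dist_vp_pp (f : Met) (c a b : V) : dist (vp c) (pp f a b) =
    (if c = a then 7 else if c = b then 8 else 9) + f.1 a.1 b.1 := by
  unfold vp pp
  rw [dist_ne (by simp), coe_tv]
  simp [w]

theorem dist_pp (f : Met) {a b c d : V} (h : (a, b) ≠ (c, d)) : 6 ≤ dist (pp f a b) (pp f c d) := by
  unfold pp
  rw [dist_ne (fun e => h (Sum.inr.inj e)), coe_tv, coe_tv]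
  have h1 := f.nonneg a.1 b.1
  have h2 := f.nonneg c.1 d.1
  simp only [w, if_neg h]
  linarith

theorem pts_pairwise (f : Met) : (pts f).Pairwise fun x y => 5 ≤ dist x y := by
  rintro x (⟨a, rfl⟩ | ⟨a, b, rfl⟩) y (⟨c, rfl⟩ | ⟨c, d, rfl⟩) hne
  · rw [dist_vp (fun e => hne (by rw [e]))]
  · rw [dist_vp_pp]
    have := f.nonneg c.1 d.1
    split_ifs <;> linarith
  · rw [dist_comm, dist_vp_pp]
    have := f.nonneg a.1 b.1
    split_ifs <;> linarith
  · have := dist_pp f (a := a) (b := b) (c := c) (d := d) (fun e => hne (by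
      rw [(Prod.mk.inj e).1, (Prod.mk.inj e).2]))
    linarith

end Pool.Agent.Helper89.UG
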