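import Mathlib

/-!
One-point extensions of metric spaces: the space of Katetov functions with finite support.
-/

set_option autoImplicit false

open Set Metric

namespace Pool.Agent.Helper89.UG

universe u

/-- The numbers `φ i` could be the distances of a new point to the points `x i`. -/
def KatAt {X ι : Type*} [PseudoMetricSpace X] (x : ι → X) (φ : ι → ℝ) : Prop :=
  (∀ i j, φ i ≤ φ j + dist (x i) (x j)) ∧ ∀ i j, dist (x i) (x j) ≤ φ i + φ j

/-- The extension property. -/
def EP (X : Type) [PseudoMetricSpace X] : Prop :=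
  ∀ (ι : Type) [Finite ι] (x : ι → X) (φ : ι → ℝ), KatAt x φ → ∃ z : X, ∀ i, dist z (x i) = φ i

/-- The approximate extension property. -/
def AEP (X : Type) [PseudoMetricSpace X] : Prop :=
  ∀ (ι : Type) [Finite ι] (x : ι → X) (φ : ι → ℝ), KatAt x φ →
    ∀ ε : ℝ, 0 < ε → ∃ z : X, ∀ i, |dist z (x i) - φ i| ≤ ε

section KatFun

variable {X : Type*} [PseudoMetricSpace X]

theorem KatAt.nonneg {ι : Type*} {x : ι → X} {φ : ι → ℝ} (h : KatAt x φ) (i : ι) : 0 ≤ φ i := by
  have := h.2 i i
  rw [dist_self] at this
  linarith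

/-- Katetov functions on a finite family extend to functions on the whole space. -/
theorem exists_katFun {ι : Type*} [Finite ι] [Nonempty ι] (x : ι → X) (φ : ι → ℝ)
    (h : KatAt x φ) : ∃ F : X → ℝ, KatAt id F ∧ (∀ i, F (x i) = φ i) ∧
      ∀ y, ∃ i, F (x i) + dist (x i) y ≤ F y := by
  classical
  have := Fintype.ofFinite ι
  let F : X → ℝ := fun y => Finset.univ.inf' Finset.univ_nonempty (fun i => φ i + dist (x i) y)
  have hle : ∀ y i, F y ≤ φ i + dist (x i) y := fun y i =>
    Finset.inf'_le (fun i => φ i + dist (x i) y) (Finset.mem_univ i)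
  have hex : ∀ y, ∃ i, F y = φ i + dist (x i) y := by
    intro y
    obtain ⟨i, -, hi⟩ := Finset.exists_mem_eq_inf' (s := Finset.univ) Finset.univ_nonempty
      (fun i => φ i + dist (x i) y)
    exact ⟨i, hi⟩
  have hF : ∀ i, F (x i) = φ i := by
    intro i
    apply le_antisymm
    · have := hle (x i) i
      rwa [dist_self, add_zero] at this
    · obtain ⟨j, hj⟩ := hex (x i)
      rw [hj]
      have := h.1 i j
      rwa [dist_comm] at this
  refine ⟨F, ⟨fun y z => ?_, fun y z => ?_⟩, hF, fun y => ?_⟩
  · obtain ⟨j, hj⟩ := hex z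
    have h1 := hle y j
    have h2 := dist_triangle (x j) z y
    rw [dist_comm z y] at h2
    simp only [id]
    linarith
  · obtain ⟨i, hi⟩ := hex y
    obtain ⟨j, hj⟩ := hex z
    have h1 := h.2 i j
    have h2 := dist_triangle4 y (x i) (x j) z
    rw [dist_comm y (x i)] at h2
    simp only [id]
    linarith
  · obtain ⟨i, hi⟩ := hex y
    exact ⟨i, by rw [hF, hi]⟩

end KatFun

/-- The Katetov functions with finite support. -/
def Kat (X : Type) [MetricSpace X] : Type :=
  {f : X → ℝ // KatAt id f ∧ ∃ (k : ℕ) (x : Fin k → X), ∀ y, ∃ i, f (x i) + dist (x i) y ≤ f y}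

namespace Kat

variable {X : Type} [MetricSpace X]

theorem bdd (f g : Kat X) : BddAbove (range fun x => |f.1 x - g.1 x|) := by
  rcases isEmpty_or_nonempty X with hX | ⟨⟨x0⟩⟩
  · rw [range_eq_empty]
    exact bddAbove_empty
  · refine ⟨f.1 x0 + g.1 x0, ?_⟩
    rintro _ ⟨x, rfl⟩
    have h1 := f.2.1.1 x x0
    have h2 := f.2.1.2 x x0
    have h3 := g.2.1.1 x x0
    have h4 := g.2.1.2 x x0
    simp only [id] at h1 h2 h3 h4
    show |f.1 x - g.1 x| ≤ _
    rw [abs_le]
    constructor <;> linarith

noncomputable instance : MetricSpace (Kat X) where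
  dist f g := ⨆ x, |f.1 x - g.1 x|
  dist_self f := by simp
  dist_comm f g := by
    congr 1
    funext x
    rw [abs_sub_comm]
  dist_triangle f g h := by
    rcases isEmpty_or_nonempty X with hX | hX
    · simp [Real.iSup_of_isEmpty]
    · refine ciSup_le fun x => ?_
      calc |f.1 x - h.1 x| ≤ |f.1 x - g.1 x| + |g.1 x - h.1 x| := abs_sub_le _ _ _
        _ ≤ _ := add_le_add (le_ciSup (bdd f g) x) (le_ciSup (bdd g h) x)
  eq_of_dist_eq_zero {f g} h := by
    apply Subtype.ext
    funext x
    have h1 : |f.1 x - g.1 x| ≤ ⨆ x, |f.1 x - g.1 x| := le_ciSup (bdd f g) x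
    have h2 : (⨆ x, |f.1 x - g.1 x|) = 0 := h
    rw [h2] at h1
    have := abs_nonneg (f.1 x - g.1 x)
    have h3 : |f.1 x - g.1 x| = 0 := le_antisymm h1 this
    rw [abs_eq_zero] at h3
    linarith

theorem dist_def (f g : Kat X) : dist f g = ⨆ x, |f.1 x - g.1 x| := rfl

theorem abs_le_dist (f g : Kat X) (x : X) : |f.1 x - g.1 x| ≤ dist f g := le_ciSup (bdd f g) x

theorem dist_le {f g : Kat X} {r : ℝ} (hr : 0 ≤ r) (h : ∀ x, |f.1 x - g.1 x| ≤ r) :
    dist f g ≤ r := by
  rcases isEmpty_or_nonempty X with hX | hX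
  · rw [dist_def]
    simpa [Real.iSup_of_isEmpty] using hr
  · exact ciSup_le h

/-- The points of `X` as Katetov functions. -/
noncomputable def kappa (x : X) : Kat X :=
  ⟨fun y => dist x y, ⟨fun y z => by
      have := dist_triangle x z y
      rw [dist_comm z y] at this
      simpa using this, fun y z => by
      have := dist_triangle y x z
      rw [dist_comm y x] at this
      simpa using this⟩, 1, fun _ => x, fun y => ⟨0, by simp⟩⟩

theorem dist_kappa (x : X) (f : Kat X) : dist (kappa x) f = f.1 x := by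
  have h0 := f.2.1.nonneg x
  apply le_antisymm
  · refine dist_le h0 fun y => ?_
    have h1 := f.2.1.1 x y
    have h2 := f.2.1.2 x y
    have h3 := f.2.1.1 y x
    simp only [id] at h1 h2 h3
    rw [dist_comm y x] at h3
    show |dist x y - f.1 y| ≤ _
    rw [abs_le]
    constructor <;> linarith
  · have := abs_le_dist (kappa x) f x
    have h1 : (kappa x).1 x = 0 := dist_self x
    rw [h1, zero_sub, abs_neg, abs_of_nonneg h0] at this
    exact this

theorem isometry_kappa : Isometry (kappa : X → Kat X) := by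
  refine Isometry.of_dist_eq fun x y => ?_
  rw [dist_kappa]
  exact dist_comm y x

/-- The one-step extension property. -/
theorem exists_of_katAt {ι : Type} [Finite ι] [Nonempty ι] (x : ι → X) (φ : ι → ℝ)
    (h : KatAt x φ) : ∃ f : Kat X, ∀ i, dist f (kappa (x i)) = φ i := by
  obtain ⟨F, h1, h2, h3⟩ := exists_katFun x φ h
  have := Fintype.ofFinite ι
  have h4 : ∃ (k : ℕ) (x : Fin k → X), ∀ y, ∃ i, F (x i) + dist (x i) y ≤ F y := by
    refine ⟨Fintype.card ι, x ∘ (Fintype.equivFin ι).symm, fun y => ?_⟩
    obtain ⟨i, hi⟩ := h3 y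
    exact ⟨Fintype.equivFin ι i, by simpa using hi⟩
  let G : Kat X := ⟨F, h1, h4⟩
  refine ⟨G, fun i => ?_⟩
  rw [dist_comm, dist_kappa]
  exact h2 i

/-- The action of isometries on Katetov functions. -/
noncomputable def map {Y : Type} [MetricSpace Y] (T : X ≃ᵢ Y) (f : Kat X) : Kat Y :=
  ⟨fun y => f.1 (T.symm y), ⟨fun y z => by
      have := f.2.1.1 (T.symm y) (T.symm z)
      simpa only [id, T.symm.dist_eq] using this, fun y z => by
      have := f.2.1.2 (T.symm y) (T.symm z)
      simpa only [id, T.symm.dist_eq] using this⟩, by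
      obtain ⟨k, x, hx⟩ := f.2.2
      refine ⟨k, T ∘ x, fun y => ?_⟩
      obtain ⟨i, hi⟩ := hx (T.symm y)
      refine ⟨i, ?_⟩
      simp only [Function.comp, T.symm_apply_apply]
      have : dist (x i) (T.symm y) = dist (T (x i)) y := by
        rw [← T.dist_eq, T.apply_symm_apply]
      rwa [this] at hi⟩

theorem isometry_map {Y : Type} [MetricSpace Y] (T : X ≃ᵢ Y) : Isometry (map T) := by
  refine Isometry.of_dist_eq fun f g => ?_
  apply le_antisymm
  · exact dist_le dist_nonneg fun y => abs_le_dist f g (T.symm y)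
  · refine dist_le dist_nonneg fun x => ?_
    have := abs_le_dist (map T f) (map T g) (T x)
    simpa only [map, T.symm_apply_apply] using this

theorem map_kappa {Y : Type} [MetricSpace Y] (T : X ≃ᵢ Y) (x : X) :
    map T (kappa x) = kappa (T x) := by
  apply Subtype.ext
  funext y
  show dist x (T.symm y) = dist (T x) y
  rw [← T.dist_eq, T.apply_symm_apply]

theorem map_symm_map {Y : Type} [MetricSpace Y] (T : X ≃ᵢ Y) (f : Kat X) :
    map T.symm (map T f) = f := by
  apply Subtype.ext
  funext x
  show f.1 (T.symm (T.symm.symm x)) = f.1 x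
  rw [IsometryEquiv.symm_symm, T.symm_apply_apply]

/-- The action of isometries on Katetov functions, as an equivalence. -/
noncomputable def mapEquiv (T : X ≃ᵢ X) : Kat X ≃ᵢ Kat X where
  toFun := map T
  invFun := map T.symm
  left_inv := map_symm_map T
  right_inv f := by
    have := map_symm_map T.symm f
    rwa [IsometryEquiv.symm_symm] at this
  isometry_toFun := isometry_map T

/-- The space of Katetov functions with finite support is separable. -/
theorem separable [TopologicalSpace.SeparableSpace X] :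
    TopologicalSpace.SeparableSpace (Kat X) := by
  have : SecondCountableTopology X := UniformSpace.secondCountable_of_separable X
  let D : ℕ → Type := fun k => {p : (Fin (k + 1) → X) × (Fin (k + 1) → ℝ) // KatAt p.1 p.2}
  have key : ∀ (k : ℕ) (p : D k), ∃ F : Kat X, (∀ i, F.1 (p.1.1 i) = p.1.2 i) ∧
      ∀ y, ∃ i, F.1 (p.1.1 i) + dist (p.1.1 i) y ≤ F.1 y := by
    intro k p
    obtain ⟨F, h1, h2, h3⟩ := exists_katFun p.1.1 p.1.2 p.2
    exact ⟨⟨F, h1, k + 1, p.1.1, h3⟩, h2, h3⟩
  choose F hF1 hF2 using key
  have hlip : ∀ (k : ℕ) (p q : D k), dist (F k p) (F k q) ≤ 2 * dist p q := by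
    intro k p q
    have main : ∀ (p q : D k) (y : X), (F k p).1 y ≤ (F k q).1 y + 2 * dist p q := by
      intro p q y
      obtain ⟨i, hi⟩ := hF2 k q y
      have h1 := (F k p).2.1.1 y (p.1.1 i)
      simp only [id] at h1
      rw [hF1] at h1 hi
      have h2 : dist (p.1.1 i) (q.1.1 i) ≤ dist p q :=
        (dist_le_pi_dist p.1.1 q.1.1 i).trans (le_max_left _ _)
      have h3 : dist (p.1.2 i) (q.1.2 i) ≤ dist p q :=
        (dist_le_pi_dist p.1.2 q.1.2 i).trans (le_max_right _ _)
      rw [Real.dist_eq] at h3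
      have h4 := (abs_le.1 h3).2
      have h5 := dist_triangle y (q.1.1 i) (p.1.1 i)
      rw [dist_comm (q.1.1 i) (p.1.1 i), dist_comm y (q.1.1 i)] at h5
      linarith
    refine dist_le (by positivity) fun y => ?_
    rw [abs_le]
    have h1 := main p q y
    have h2 := main q p y
    rw [dist_comm q p] at h2
    constructor <;> linarith
  have hcont : ∀ k, Continuous (F k) := by
    intro k
    refine continuous_iff_continuousAt.2 fun p => ?_
    exact (LipschitzWith.of_dist_le_mul (K := 2) fun p q => by simpa using hlip k p q).continuous.continuousAt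
  have hsep : TopologicalSpace.IsSeparable (⋃ k, range (F k)) :=
    TopologicalSpace.IsSeparable.iUnion fun k => TopologicalSpace.isSeparable_range (hcont k)
  rcases isEmpty_or_nonempty X with hX | hX
  · have : Subsingleton (Kat X) := ⟨fun f g => Subtype.ext (funext fun x => hX.elim x)⟩
    have : Countable (Kat X) := inferInstance
    infer_instance
  · have huniv : (⋃ k, range (F k)) = univ := by
      refine eq_univ_of_forall fun f => ?_
      obtain ⟨k, x, hx⟩ := f.2.2
      cases k with
      | zero =>
        obtain ⟨y⟩ := hX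
        obtain ⟨i, -⟩ := hx y
        exact i.elim0
      | succ k =>
        refine mem_iUnion.2 ⟨k, ⟨⟨(x, fun i => f.1 (x i)),
          fun i j => f.2.1.1 (x i) (x j), fun i j => f.2.1.2 (x i) (x j)⟩, ?_⟩⟩
        set p : D k := ⟨(x, fun i => f.1 (x i)),
          fun i j => f.2.1.1 (x i) (x j), fun i j => f.2.1.2 (x i) (x j)⟩ with hp
        apply Subtype.ext
        funext y
        apply le_antisymm
        · obtain ⟨i, hi⟩ := hx y
          have h1 := (F k p).2.1.1 y (x i)
          have h2 := hF1 k p i
          simp only [id] at h1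
          have h3 : (F k p).1 (x i) = f.1 (x i) := h2
          rw [h3, dist_comm] at h1
          linarith
        · obtain ⟨i, hi⟩ := hF2 k p y
          have h2 : (F k p).1 (x i) = f.1 (x i) := hF1 k p i
          have h1 := f.2.1.1 y (x i)
          simp only [id] at h1
          have h3 : p.1.1 i = x i := rfl
          rw [h3, h2] at hi
          rw [dist_comm] at h1
          linarith
    rw [huniv] at hsep
    exact TopologicalSpace.isSeparable_univ_iff.1 hsep

end Kat

end Pool.Agent.Helper89.UG
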