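import Pool.Agent.Helper89.UG.GH
import Pool.Agent.Helper89.UG.Ury

/-!
The metric on the natural numbers which codes a closed subset of the Urysohn space.
-/

set_option autoImplicit false

open Set Metric TopologicalSpace
open scoped ENNReal NNReal

namespace Pool.Agent.Helper89.UG

section

variable {U : Type} [MetricSpace U]

theorem EP.infinite (h : EP U) : Infinite U := by
  obtain ⟨x0, -⟩ := h Empty (fun i => i.elim) (fun i => i.elim) ⟨fun i => i.elim, fun i => i.elim⟩
  have key : ∀ n : ℕ, ∃ z, dist z x0 = n := by
    intro n
    obtain ⟨z, hz⟩ := h Unit (fun _ => x0) (fun _ => n)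
      ⟨fun i j => by simp, fun i j => by simp⟩
    exact ⟨z, hz ()⟩
  choose z hz using key
  refine Infinite.of_injective z fun a b hab => ?_
  have h1 := hz a
  have h2 := hz b
  rw [hab, h2] at h1
  exact_mod_cast h1.symm

theorem EP.exists_dense [SeparableSpace U] (h : EP U) :
    ∃ u : ℕ → U, Function.Injective u ∧ DenseRange u := by
  have := h.infinite
  obtain ⟨s, hs1, hs2⟩ := exists_countable_dense U
  have hinf : s.Infinite := by
    intro hfin
    have h1 := hfin.isClosed.closure_eq
    rw [hs2.closure_eq] at h1
    rw [← h1] at hfin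
    exact infinite_univ hfin
  have := hinf.to_subtype
  have := hs1.to_subtype
  obtain ⟨d⟩ := nonempty_denumerable s
  refine ⟨fun n => ((Denumerable.eqv s).symm n : U),
    Subtype.val_injective.comp (Denumerable.eqv s).symm.injective, ?_⟩
  refine hs2.mono fun x hx => ⟨Denumerable.eqv s ⟨x, hx⟩, by simp⟩

/-- Points at approximately given distance. -/
theorem EP.exists_dist (h : EP U) {u : ℕ → U} (hu : DenseRange u) (x : U) {r ε : ℝ} (hr : 0 ≤ r)
    (hε : 0 < ε) : ∃ k, |dist x (u k) - r| < ε := by
  obtain ⟨z, hz⟩ := h Unit (fun _ => x) (fun _ => r)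
      ⟨fun i j => by simp, fun i j => by simpa using hr⟩
  obtain ⟨k, hk⟩ := hu.exists_dist_lt z hε
  refine ⟨k, ?_⟩
  have h1 := hz ()
  rw [dist_comm] at h1
  rw [← h1, dist_comm x, dist_comm x]
  refine (abs_dist_sub_le _ _ _).trans_lt ?_
  rwa [dist_comm]

theorem EP.exists_midpoint (h : EP U) (x y : U) :
    ∃ z, dist x z = dist x y / 2 ∧ dist z y = dist x y / 2 := by
  have h0 : 0 ≤ dist x y := dist_nonneg
  obtain ⟨z, hz⟩ := h Bool (fun b => if b then x else y) (fun _ => dist x y / 2)
    ⟨fun i j => by
      have : 0 ≤ dist (if i = true then x else y) (if j = true then x else y) := dist_nonneg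
      linarith, fun i j => by
      rcases i <;> rcases j <;> simp [dist_comm]⟩
  refine ⟨z, ?_, ?_⟩
  · have := hz true
    rw [dist_comm]
    simpa using this
  · have := hz false
    simpa using this

/-- Maps which preserve small distances do not increase distances. -/
theorem EP.dist_le_of_local (h : EP U) {F : U → U}
    (hF : ∀ x y, min 1 (dist (F x) (F y)) = min 1 (dist x y)) (x y : U) :
    dist (F x) (F y) ≤ dist x y := by
  have key : ∀ (k : ℕ) (x y : U), dist x y < 2 ^ k → dist (F x) (F y) ≤ dist x y := by
    intro k
    induction k with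
    | zero =>
      intro x y hxy
      rw [pow_zero] at hxy
      have h1 := hF x y
      rw [min_eq_right hxy.le] at h1
      rcases le_total 1 (dist (F x) (F y)) with h2 | h2
      · rw [min_eq_left h2] at h1
        linarith
      · rw [min_eq_right h2] at h1
        exact h1.le
    | succ k ih =>
      intro x y hxy
      obtain ⟨z, hz1, hz2⟩ := h.exists_midpoint x y
      rw [pow_succ] at hxy
      have h1 := ih x z (by linarith)
      have h2 := ih z y (by linarith)
      have h3 := dist_triangle (F x) (F z) (F y)
      linarith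
  obtain ⟨k, hk⟩ := pow_unbounded_of_one_lt (dist x y) (one_lt_two : (1 : ℝ) < 2)
  exact key k x y hk

/-! ### The truncated distance to a closed set -/

theorem toReal_min_le {E E' : ℝ≥0∞} {d : ℝ} (hd : 0 ≤ d) (h : E ≤ E' + ENNReal.ofReal d) :
    (min 1 E).toReal ≤ (min 1 E').toReal + d := by
  have h1 : min 1 E ≤ min 1 E' + ENNReal.ofReal d := by
    rcases le_total 1 E' with h2 | h2
    · rw [min_eq_left h2]
      exact (min_le_left _ _).trans le_self_add
    · rw [min_eq_right h2]
      exact (min_le_right _ _).trans h
  have h2 : (min 1 E') ≠ ∞ := ne_top_of_le_ne_top ENNReal.one_ne_top (min_le_left _ _)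
  have h3 := ENNReal.toReal_mono (ENNReal.add_ne_top.2 ⟨h2, ENNReal.ofReal_ne_top⟩) h1
  rwa [ENNReal.toReal_add h2 ENNReal.ofReal_ne_top, ENNReal.toReal_ofReal hd] at h3

/-- The truncated distance to a closed set. -/
noncomputable def sA (A : Clo U) (x : U) : ℝ := (min 1 (infEDist x A.1)).toReal

theorem sA_nonneg (A : Clo U) (x : U) : 0 ≤ sA A x := ENNReal.toReal_nonneg

theorem sA_le_one (A : Clo U) (x : U) : sA A x ≤ 1 := by
  have := ENNReal.toReal_mono ENNReal.one_ne_top (min_le_left 1 (infEDist x A.1))
  rwa [ENNReal.toReal_one] at this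

theorem sA_le_add (A : Clo U) (x y : U) : sA A x ≤ sA A y + dist x y := by
  refine toReal_min_le dist_nonneg ?_
  rw [← edist_dist]
  exact infEDist_le_infEDist_add_edist

theorem sA_le_add_min (A : Clo U) (x y : U) : sA A x ≤ sA A y + min 1 (dist x y) := by
  rcases le_total 1 (dist x y) with h | h
  · rw [min_eq_left h]
    linarith [sA_le_one A x, sA_nonneg A y]
  · rw [min_eq_right h]
    exact sA_le_add A x y

theorem sA_of_mem {A : Clo U} {x : U} (h : x ∈ A.1) : sA A x = 0 := by
  unfold sA
  rw [infEDist_zero_of_mem h]
  simp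

theorem exists_of_sA_lt {A : Clo U} {x : U} {r : ℝ} (hr : r ≤ 1) (h : sA A x < r) :
    ∃ y ∈ A.1, dist x y < r := by
  have h2 : min 1 (infEDist x A.1) ≠ ∞ := ne_top_of_le_ne_top ENNReal.one_ne_top (min_le_left _ _)
  have h3 : min 1 (infEDist x A.1) < ENNReal.ofReal r := (ENNReal.lt_ofReal_iff_toReal_lt h2).2 h
  rcases min_lt_iff.1 h3 with h4 | h4
  · exfalso
    have : ENNReal.ofReal r ≤ 1 := by
      rw [← ENNReal.ofReal_one]
      exact ENNReal.ofReal_le_ofReal hr
    exact absurd h4 (not_lt.2 this)
  · obtain ⟨y, hy, hxy⟩ := infEDist_lt_iff.1 h4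
    rw [edist_lt_ofReal] at hxy
    exact ⟨y, hy, hxy⟩

theorem abs_sA_sub_le {A B : Clo U} {e : U ≃ᵢ U} {δ : ℝ} (hδ : 0 ≤ δ)
    (h : hausdorffEDist (e '' A.1) B.1 < ENNReal.ofReal δ) (x : U) :
    |sA A x - sA B (e x)| ≤ δ := by
  have e1 : infEDist (e x) (e '' A.1) = infEDist x A.1 := infEDist_image e.isometry
  have h1 : sA B (e x) ≤ sA A x + δ := by
    refine toReal_min_le hδ ?_
    rw [← e1]
    exact infEDist_le_infEDist_add_hausdorffEDist.trans (add_le_add le_rfl h.le)
  have h2 : sA A x ≤ sA B (e x) + δ := by
    refine toReal_min_le hδ ?_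
    rw [← e1]
    rw [hausdorffEDist_comm] at h
    exact infEDist_le_infEDist_add_hausdorffEDist.trans (add_le_add le_rfl h.le)
  rw [abs_le]
  constructor <;> linarith

theorem measurable_sA (x : U) : Measurable fun A : Clo U => sA A x := by
  have h1 : Measurable fun A : Clo U => infEDist x A.1 := by
    refine measurable_of_Iio fun r => ?_
    refine MeasurableSpace.measurableSet_generateFrom ⟨eball x r, isOpen_eball, ?_⟩
    ext A
    simp only [mem_preimage, mem_Iio, mem_ofPred_eq, infEDist_lt_iff]
    constructor
    · rintro ⟨y, hy, hxy⟩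
      exact ⟨y, hy, by rwa [mem_eball, edist_comm]⟩
    · rintro ⟨y, hy, hxy⟩
      exact ⟨y, hy, by rwa [mem_eball, edist_comm] at hxy⟩
  exact (measurable_const.min h1).ennreal_toReal

end

/-! ### The metric -/

section

variable {U : Type} [MetricSpace U]

theorem one_le_two_pow' (n : ℕ) : (1 : ℝ) ≤ 2 ^ n := one_le_pow₀ one_le_two

theorem min_mul_le {c d : ℝ} {n : ℕ} (hc : c ≤ 2 ^ n) (hd : 0 ≤ d) :
    min 1 (c * d) ≤ 2 ^ n * min 1 d := by
  have h1 := one_le_two_pow' n
  rcases le_total 1 d with h | h
  · rw [min_eq_left h, mul_one]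
    exact (min_le_left _ _).trans h1
  · rw [min_eq_right h]
    exact (min_le_right _ _).trans (mul_le_mul_of_nonneg_right hc hd)

theorem min_tri {a b c : ℝ} (hb : 0 ≤ b) (hc : 0 ≤ c) (h : a ≤ b + c) :
    min 1 a ≤ min 1 b + min 1 c := by
  rcases le_total 1 b with h1 | h1
  · rw [min_eq_left h1]
    have : 0 ≤ min 1 c := le_min zero_le_one hc
    linarith [min_le_left 1 a]
  · rcases le_total 1 c with h2 | h2
    · rw [min_eq_left h2]
      have : 0 ≤ min 1 b := le_min zero_le_one hb
      linarith [min_le_left 1 a]
    · rw [min_eq_right h1, min_eq_right h2]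
      exact (min_le_right _ _).trans h

/-- The distances of the points of the levels and the marker. -/
noncomputable def zd (u : ℕ → U) (A : Clo U) : Option (ℕ × ℕ) → Option (ℕ × ℕ) → ℝ
  | none, none => 0
  | none, some q => 4 * 2 ^ q.2 + sA A (u q.1)
  | some p, none => 4 * 2 ^ p.2 + sA A (u p.1)
  | some p, some q => if p.2 = q.2 then 2 ^ p.2 * min 1 (dist (u p.1) (u q.1)) else
      4 * 2 ^ (max p.2 q.2) + min 1 (2 ^ (min p.2 q.2) * dist (u p.1) (u q.1))

variable (u : ℕ → U) (A : Clo U)

theorem zd_comm (p q : Option (ℕ × ℕ)) : zd u A p q = zd u A q p := by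
  rcases p with _ | p <;> rcases q with _ | q <;> simp only [zd]
  by_cases h : p.2 = q.2
  · rw [if_pos h, if_pos h.symm, h, dist_comm]
  · rw [if_neg h, if_neg (Ne.symm h), max_comm, min_comm p.2, dist_comm]

theorem zd_same (i k n : ℕ) :
    zd u A (some (i, n)) (some (k, n)) = 2 ^ n * min 1 (dist (u i) (u k)) := by
  simp [zd]

theorem zd_ne {n m : ℕ} (h : n ≠ m) (i k : ℕ) : zd u A (some (i, n)) (some (k, m)) =
    4 * 2 ^ (max n m) + min 1 (2 ^ (min n m) * dist (u i) (u k)) := by
  simp [zd, h]

theorem zd_none (i n : ℕ) : zd u A none (some (i, n)) = 4 * 2 ^ n + sA A (u i) := rfl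

theorem zd_none' (i n : ℕ) : zd u A (some (i, n)) none = 4 * 2 ^ n + sA A (u i) := rfl

theorem zd_nonneg (p q : Option (ℕ × ℕ)) : 0 ≤ zd u A p q := by
  rcases p with _ | p <;> rcases q with _ | q <;> simp only [zd]
  · exact le_rfl
  · have := sA_nonneg A (u q.1)
    positivity
  · have := sA_nonneg A (u p.1)
    positivity
  · split_ifs <;> positivity

theorem zd_triangle (p q r : Option (ℕ × ℕ)) : zd u A p r ≤ zd u A p q + zd u A q r := by
  rcases p with _ | ⟨i, n⟩
  · rcases r with _ | ⟨l, m⟩
    · have := add_nonneg (zd_nonneg u A none q) (zd_nonneg u A q none)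
      simpa only [zd] using this
    · rcases q with _ | ⟨j, k⟩
      · show _ ≤ (0 : ℝ) + _
        rw [zero_add]
      · have s0 := sA_nonneg A (u j)
        have s1 := sA_le_one A (u l)
        by_cases h : k = m
        · subst h
          rw [zd_none, zd_none, zd_same]
          have h1 := sA_le_add_min A (u l) (u j)
          have h2 : min 1 (dist (u l) (u j)) ≤ 2 ^ k * min 1 (dist (u j) (u l)) := by
            rw [dist_comm (u l)]
            have := min_mul_le (c := 1) (n := k) (one_le_two_pow' k)
              (dist_nonneg (x := u j) (y := u l))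
            rwa [one_mul] at this
          linarith
        · rw [zd_none, zd_none, zd_ne u A h]
          have h1 : (2 : ℝ) ^ m ≤ 2 ^ (max k m) := pow_le_pow_right₀ one_le_two (le_max_right _ _)
          have h2 : 0 ≤ min 1 (2 ^ (min k m) * dist (u j) (u l)) := by positivity
          have h3 := one_le_two_pow' k
          linarith
  · rcases r with _ | ⟨l, m⟩
    · rcases q with _ | ⟨j, k⟩
      · show _ ≤ _ + (0 : ℝ)
        rw [add_zero]
      · have s0 := sA_nonneg A (u j)
        have s1 := sA_le_one A (u i)
        by_cases h : n = k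
        · subst h
          rw [zd_none', zd_none', zd_same]
          have h1 := sA_le_add_min A (u i) (u j)
          have h2 : min 1 (dist (u i) (u j)) ≤ 2 ^ n * min 1 (dist (u i) (u j)) := by
            have := min_mul_le (c := 1) (n := n) (one_le_two_pow' n)
              (dist_nonneg (x := u i) (y := u j))
            rwa [one_mul] at this
          linarith
        · rw [zd_none', zd_none', zd_ne u A h]
          have h1 : (2 : ℝ) ^ n ≤ 2 ^ (max n k) := pow_le_pow_right₀ one_le_two (le_max_left _ _)
          have h2 : 0 ≤ min 1 (2 ^ (min n k) * dist (u i) (u j)) := by positivity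
          have h3 := one_le_two_pow' k
          linarith
    · rcases q with _ | ⟨j, k⟩
      · rw [zd_none, zd_none']
        have s0 := sA_nonneg A (u i)
        have s1 := sA_nonneg A (u l)
        have h1 := one_le_two_pow' n
        have h2 := one_le_two_pow' m
        by_cases h : n = m
        · subst h
          rw [zd_same]
          have h3 : 2 ^ n * min 1 (dist (u i) (u l)) ≤ 2 ^ n * 1 :=
            mul_le_mul_of_nonneg_left (min_le_left _ _) (by positivity)
          linarith
        · rw [zd_ne u A h]
          have h3 := min_le_left 1 (2 ^ (min n m) * dist (u i) (u l))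
          have h4 : (2 : ℝ) ^ (max n m) + 1 ≤ 2 ^ n + 2 ^ m := by
            rcases le_total n m with h5 | h5
            · rw [max_eq_right h5]
              linarith
            · rw [max_eq_left h5]
              linarith
          linarith
      · have d0 := dist_triangle (u i) (u j) (u l)
        have d1 : 0 ≤ dist (u i) (u j) := dist_nonneg
        have d2 : 0 ≤ dist (u j) (u l) := dist_nonneg
        by_cases hnm : n = m
        · subst hnm
          by_cases hnk : n = k
          · subst hnk
            rw [zd_same, zd_same, zd_same, ← mul_add]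
            exact mul_le_mul_of_nonneg_left (min_tri d1 d2 d0) (by positivity)
          · rw [zd_same, zd_ne u A hnk, zd_ne u A (Ne.symm hnk)]
            have h3 : 2 ^ n * min 1 (dist (u i) (u l)) ≤ 2 ^ n * 1 :=
              mul_le_mul_of_nonneg_left (min_le_left _ _) (by positivity)
            have h4 : (2 : ℝ) ^ n ≤ 2 ^ (max n k) := pow_le_pow_right₀ one_le_two (le_max_left _ _)
            have h5 : 0 ≤ min 1 (2 ^ (min n k) * dist (u i) (u j)) := by positivity
            have h6 : 0 ≤ min 1 (2 ^ (min k n) * dist (u j) (u l)) := by positivity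
            have h7 : (0 : ℝ) < 2 ^ (max k n) := by positivity
            have h8 : (0 : ℝ) < 2 ^ n := by positivity
            linarith
        · by_cases hnk : n = k
          · subst hnk
            rw [zd_ne u A hnm, zd_same, zd_ne u A hnm]
            have h1 : min 1 ((2 : ℝ) ^ (min n m) * dist (u i) (u j)) ≤
                2 ^ n * min 1 (dist (u i) (u j)) :=
              min_mul_le (pow_le_pow_right₀ one_le_two (min_le_left _ _)) d1
            have h2 : min 1 ((2 : ℝ) ^ (min n m) * dist (u i) (u l)) ≤
                min 1 ((2 : ℝ) ^ (min n m) * dist (u i) (u j)) +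
                min 1 ((2 : ℝ) ^ (min n m) * dist (u j) (u l)) :=
              min_tri (by positivity) (by positivity) (by
                rw [← mul_add]
                exact mul_le_mul_of_nonneg_left d0 (by positivity))
            linarith
          · by_cases hkm : k = m
            · subst hkm
              rw [zd_ne u A hnm, zd_same, zd_ne u A hnm]
              have h1 : min 1 ((2 : ℝ) ^ (min n k) * dist (u j) (u l)) ≤
                  2 ^ k * min 1 (dist (u j) (u l)) :=
                min_mul_le (pow_le_pow_right₀ one_le_two (min_le_right _ _)) d2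
              have h2 : min 1 ((2 : ℝ) ^ (min n k) * dist (u i) (u l)) ≤
                  min 1 ((2 : ℝ) ^ (min n k) * dist (u i) (u j)) +
                  min 1 ((2 : ℝ) ^ (min n k) * dist (u j) (u l)) :=
                min_tri (by positivity) (by positivity) (by
                  rw [← mul_add]
                  exact mul_le_mul_of_nonneg_left d0 (by positivity))
              linarith
            · rw [zd_ne u A hnm, zd_ne u A hnk, zd_ne u A hkm]
              have h3 := min_le_left 1 (2 ^ (min n m) * dist (u i) (u l))
              have h5 : 0 ≤ min 1 (2 ^ (min n k) * dist (u i) (u j)) := by positivity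
              have h6 : 0 ≤ min 1 (2 ^ (min k m) * dist (u j) (u l)) := by positivity
              have h7 : (2 : ℝ) ^ n ≤ 2 ^ (max n k) :=
                pow_le_pow_right₀ one_le_two (le_max_left _ _)
              have h8 : (2 : ℝ) ^ m ≤ 2 ^ (max k m) :=
                pow_le_pow_right₀ one_le_two (le_max_right _ _)
              have h9 := one_le_two_pow' n
              have h10 := one_le_two_pow' m
              have h4 : (2 : ℝ) ^ (max n m) + 1 ≤ 2 ^ n + 2 ^ m := by
                rcases le_total n m with h5 | h5
                · rw [max_eq_right h5]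
                  linarith
                · rw [max_eq_left h5]
                  linarith
              linarith

theorem zd_eq_zero {u : ℕ → U} (hu : Function.Injective u) (A : Clo U) {p q : Option (ℕ × ℕ)}
    (h : zd u A p q = 0) : p = q := by
  rcases p with _ | ⟨i, n⟩ <;> rcases q with _ | ⟨k, m⟩
  · rfl
  · rw [zd_none] at h
    have := sA_nonneg A (u k)
    have := one_le_two_pow' m
    linarith
  · rw [zd_none'] at h
    have := sA_nonneg A (u i)
    have := one_le_two_pow' n
    linarith
  · by_cases hnm : n = m
    · subst hnm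
      rw [zd_same] at h
      have h1 : min 1 (dist (u i) (u k)) = 0 := by
        rcases mul_eq_zero.1 h with h2 | h2
        · exact absurd h2 (by positivity)
        · exact h2
      have h2 : dist (u i) (u k) = 0 := by
        rcases le_total 1 (dist (u i) (u k)) with h3 | h3
        · rw [min_eq_left h3] at h1
          linarith
        · rwa [min_eq_right h3] at h1
      rw [hu (dist_eq_zero.1 h2)]
    · rw [zd_ne u A hnm] at h
      have h5 : 0 ≤ min 1 (2 ^ (min n m) * dist (u i) (u k)) := by positivity
      have := one_le_two_pow' (max n m)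
      linarith

/-- A numbering of the points. -/
noncomputable def ix : ℕ ≃ Option (ℕ × ℕ) := (Denumerable.eqv (Option (ℕ × ℕ))).symm

/-- The metric which codes the closed set `A`. -/
noncomputable def zmet {u : ℕ → U} (hu : Function.Injective u) (A : Clo U) : Met :=
  ⟨fun a b => zd u A (ix a) (ix b), fun a => by
      have : ∀ p, zd u A p p = 0 := by
        rintro (_ | ⟨i, n⟩)
        · rfl
        · rw [zd_same, dist_self]
          simp
      exact this _, fun a b h => ix.injective (zd_eq_zero hu A h),
    fun a b => zd_comm u A _ _, fun a b c => zd_triangle u A _ _ _⟩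

theorem measurable_zmet {u : ℕ → U} (hu : Function.Injective u) : Measurable (zmet hu) := by
  have hb : (instMeasurableSpaceMet) = (Subtype.instMeasurableSpace : MeasurableSpace
      {f : ℕ → ℕ → ℝ // IsMetric f}) := (BorelSpace.measurable_eq (α :=
        {f : ℕ → ℕ → ℝ // IsMetric f})).symm
  have key : @Measurable _ {f : ℕ → ℕ → ℝ // IsMetric f} _ Subtype.instMeasurableSpace
      (zmet hu) := by
    refine Measurable.subtype_mk ?_
    refine measurable_pi_lambda _ fun a => measurable_pi_lambda _ fun b => ?_
    rcases ix a with _ | p <;> rcases ix b with _ | q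
    · exact measurable_const
    · exact (measurable_sA (u q.1)).const_add _
    · exact (measurable_sA (u p.1)).const_add _
    · exact measurable_const
  rw [hb]
  exact key

end

end Pool.Agent.Helper89.UG
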