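import Pool.Agent.Helper89.UG.PartA1

/-!
The reduction of the orbit pseudometric to the Gromov-Hausdorff distance.
-/

set_option autoImplicit false

open Set Metric TopologicalSpace
open scoped ENNReal NNReal

namespace Pool.Agent.Helper89.UG

section

variable {U : Type} [MetricSpace U] {u : ℕ → U}

theorem abs_min_sub_min_le (a b : ℝ) : |min 1 a - min 1 b| ≤ |a - b| := by
  rcases le_total 1 a with h1 | h1 <;> rcases le_total 1 b with h2 | h2
  · rw [min_eq_left h1, min_eq_left h2, sub_self, abs_zero]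
    exact abs_nonneg _
  · rw [min_eq_left h1, min_eq_right h2, abs_of_nonneg (by linarith), abs_of_nonneg (by linarith)]
    linarith
  · rw [min_eq_right h1, min_eq_left h2, abs_of_nonpos (by linarith), abs_of_nonpos (by linarith)]
    linarith
  · rw [min_eq_right h1, min_eq_right h2]

/-- The correspondence given by an isometry. -/
def isoCorr (u : ℕ → U) (e : U ≃ᵢ U) (δ : ℝ) : Option (ℕ × ℕ) → Option (ℕ × ℕ) → Prop
  | none, none => True
  | none, some _ => False
  | some _, none => False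
  | some p, some q => p.2 = q.2 ∧ 2 ^ p.2 * dist (e (u p.1)) (u q.1) < δ

theorem abs_dist_sub_dist_le (e : U ≃ᵢ U) (x y x' y' : U) :
    |dist x y - dist x' y'| ≤ dist (e x) x' + dist (e y) y' := by
  rw [← e.dist_eq x y]
  have t1 := dist_triangle4 (e x) x' y' (e y)
  have t2 := dist_triangle4 x' (e x) (e y) y'
  rw [dist_comm y' (e y)] at t1
  rw [dist_comm x' (e x)] at t2
  rw [abs_le]
  constructor <;> linarith

theorem rhoGH_zmet_le (hi : Function.Injective u) (hu : DenseRange u) {A B : Clo U} {δ : ℝ}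
    (hδ : 0 < δ) (h : rhoU U A B < ENNReal.ofReal δ) :
    rhoGH (zmet hi A) (zmet hi B) ≤ ENNReal.ofReal δ := by
  obtain ⟨e, he⟩ := exists_of_rhoU_lt h
  have hex1 : ∀ p, ∃ q, isoCorr u e δ p q := by
    rintro (_ | ⟨i, n⟩)
    · exact ⟨none, trivial⟩
    · obtain ⟨k, hk⟩ := hu.exists_dist_lt (e (u i)) (show 0 < δ / 2 ^ n by positivity)
      refine ⟨some (k, n), rfl, ?_⟩
      rw [lt_div_iff₀ (by positivity), mul_comm] at hk
      exact hk
  have hex2 : ∀ q, ∃ p, isoCorr u e δ p q := by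
    rintro (_ | ⟨k, n⟩)
    · exact ⟨none, trivial⟩
    · obtain ⟨i, hi'⟩ := hu.exists_dist_lt (e.symm (u k)) (show 0 < δ / 2 ^ n by positivity)
      refine ⟨some (i, n), rfl, ?_⟩
      rw [← e.dist_eq, e.apply_symm_apply, dist_comm, lt_div_iff₀ (by positivity), mul_comm] at hi'
      exact hi'
  have hone : ∀ {i n k : ℕ}, 2 ^ n * dist (e (u i)) (u k) < δ → dist (e (u i)) (u k) < δ := by
    intro i n k h
    refine lt_of_le_of_lt ?_ h
    exact le_mul_of_one_le_left dist_nonneg (one_le_two_pow' n)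
  have hs : ∀ {i n k : ℕ}, 2 ^ n * dist (e (u i)) (u k) < δ →
      |sA A (u i) - sA B (u k)| ≤ 2 * δ := by
    intro i n k h
    have h1 := abs_le.1 (abs_sA_sub_le hδ.le he (u i))
    have h2 := sA_le_add B (e (u i)) (u k)
    have h3 := sA_le_add B (u k) (e (u i))
    rw [dist_comm] at h3
    have h4 := hone h
    rw [abs_le]
    constructor <;> linarith [h1.1, h1.2]
  refine rhoGH_le_of_corr hδ (fun a b => isoCorr u e δ (ix a) (ix b)) ?_ ?_ ?_
  · intro a
    obtain ⟨q, hq⟩ := hex1 (ix a)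
    exact ⟨ix.symm q, by rwa [ix.apply_symm_apply]⟩
  · intro b
    obtain ⟨p, hp⟩ := hex2 (ix b)
    exact ⟨ix.symm p, by rwa [ix.apply_symm_apply]⟩
  · intro a b a' b' h1 h2
    show |zd u A (ix a) (ix a') - zd u B (ix b) (ix b')| ≤ 2 * δ
    revert h1 h2
    generalize ix a = p, ix b = q, ix a' = p', ix b' = q'
    intro h1 h2
    rcases p with _ | ⟨i, n⟩ <;> rcases q with _ | ⟨k, m⟩
    · rcases p' with _ | ⟨i', n'⟩ <;> rcases q' with _ | ⟨k', m'⟩
      · show |(0 : ℝ) - 0| ≤ 2 * δ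
        rw [sub_self, abs_zero]
        positivity
      · exact h2.elim
      · exact h2.elim
      · obtain ⟨h3, h4⟩ := h2
        simp only at h3 h4
        subst h3
        rw [zd_none, zd_none, add_sub_add_left_eq_sub]
        exact hs h4
    · exact h1.elim
    · exact h1.elim
    · obtain ⟨h3, h4⟩ := h1
      simp only at h3 h4
      subst h3
      rcases p' with _ | ⟨i', n'⟩ <;> rcases q' with _ | ⟨k', m'⟩
      · rw [zd_none', zd_none', add_sub_add_left_eq_sub]
        exact hs h4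
      · exact h2.elim
      · exact h2.elim
      · obtain ⟨h5, h6⟩ := h2
        simp only at h5 h6
        subst h5
        have hd := abs_dist_sub_dist_le e (u i) (u i') (u k) (u k')
        by_cases hn : n = n'
        · subst hn
          rw [zd_same, zd_same, ← mul_sub, abs_mul, abs_of_pos (by positivity : (0 : ℝ) < 2 ^ n)]
          calc (2 : ℝ) ^ n * |min 1 (dist (u i) (u i')) - min 1 (dist (u k) (u k'))|
              ≤ 2 ^ n * (dist (e (u i)) (u k) + dist (e (u i')) (u k')) :=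
                mul_le_mul_of_nonneg_left ((abs_min_sub_min_le _ _).trans hd) (by positivity)
            _ ≤ 2 * δ := by
                rw [mul_add]
                linarith
        · rw [zd_ne u A hn, zd_ne u B hn, add_sub_add_left_eq_sub]
          refine (abs_min_sub_min_le _ _).trans ?_
          rw [← mul_sub, abs_mul, abs_of_pos (by positivity : (0 : ℝ) < 2 ^ (min n n'))]
          have e1 : (2 : ℝ) ^ (min n n') * dist (e (u i)) (u k) ≤ δ :=
            (mul_le_mul_of_nonneg_right (pow_le_pow_right₀ one_le_two (min_le_left _ _))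
              dist_nonneg).trans h4.le
          have e2 : (2 : ℝ) ^ (min n n') * dist (e (u i')) (u k') ≤ δ :=
            (mul_le_mul_of_nonneg_right (pow_le_pow_right₀ one_le_two (min_le_right _ _))
              dist_nonneg).trans h6.le
          calc (2 : ℝ) ^ (min n n') * |dist (u i) (u i') - dist (u k) (u k')|
              ≤ 2 ^ (min n n') * (dist (e (u i)) (u k) + dist (e (u i')) (u k')) :=
                mul_le_mul_of_nonneg_left hd (by positivity)
            _ ≤ 2 * δ := by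
                rw [mul_add]
                linarith

/-! ### Decoding -/

/-- A correspondence of distortion less than `η` between the codes of `A` and `B`. -/
structure ZCorr (u : ℕ → U) (A B : Clo U) (η : ℝ)
    (S : Option (ℕ × ℕ) → Option (ℕ × ℕ) → Prop) : Prop where
  left : ∀ p, ∃ q, S p q
  right : ∀ q, ∃ p, S p q
  dist_lt : ∀ p q p' q', S p q → S p' q' → |zd u A p p' - zd u B q q'| < η

variable {A B : Clo U} {η : ℝ} {S : Option (ℕ × ℕ) → Option (ℕ × ℕ) → Prop}

theorem ZCorr.flip (h : ZCorr u A B η S) : ZCorr u B A η (fun q p => S p q) where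
  left := h.right
  right := h.left
  dist_lt q p q' p' h1 h2 := by
    rw [abs_sub_comm]
    exact h.dist_lt p q p' q' h1 h2

theorem exists_zd (hU : EP U) (hu : DenseRange u) (B : Clo U) (k m : ℕ) {r : ℝ} (hr : 0 ≤ r)
    (hr' : r ≤ 3 / 4 * 2 ^ m) :
    ∃ k', |zd u B (some (k, m)) (some (k', m)) - r| < 1 / 10 := by
  have hp : (0 : ℝ) < 2 ^ m := by positivity
  obtain ⟨k', hk'⟩ := hU.exists_dist hu (u k) (r := r / 2 ^ m) (ε := 1 / 10 / 2 ^ m)
    (by positivity) (by positivity)
  refine ⟨k', ?_⟩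
  have h1 : r / 2 ^ m ≤ 3 / 4 := by
    rw [div_le_iff₀ hp]
    exact hr'
  have h2 : (1 : ℝ) / 10 / 2 ^ m ≤ 1 / 10 := by
    rw [div_le_iff₀ hp]
    have := one_le_two_pow' m
    linarith
  have h3 : dist (u k) (u k') ≤ 1 := by
    have := (abs_lt.1 hk').2
    linarith
  rw [zd_same, min_eq_right h3]
  have e : 2 ^ m * dist (u k) (u k') - r = 2 ^ m * (dist (u k) (u k') - r / 2 ^ m) := by
    field_simp
  rw [e, abs_mul, abs_of_pos hp]
  calc (2 : ℝ) ^ m * |dist (u k) (u k') - r / 2 ^ m| < 2 ^ m * (1 / 10 / 2 ^ m) :=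
        mul_lt_mul_of_pos_left hk' hp
    _ = 1 / 10 := by field_simp

theorem ZCorr.none_of (hU : EP U) (hu : DenseRange u) (h : ZCorr u A B η S) (hη : η ≤ 1 / 10)
    {q : Option (ℕ × ℕ)} (hq : S none q) : q = none := by
  rcases q with _ | ⟨k, m⟩
  · rfl
  · exfalso
    have h1 := one_le_two_pow' m
    obtain ⟨k', hk'⟩ := exists_zd hU hu B k m (r := 1 / 2) (by norm_num) (by linarith)
    obtain ⟨p', hp'⟩ := h.right (some (k', m))
    have h2 := abs_lt.1 (h.dist_lt _ _ _ _ hq hp')
    have h3 := abs_lt.1 hk'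
    rcases p' with _ | ⟨i, n⟩
    · have e : zd u A none none = 0 := rfl
      rw [e] at h2
      linarith [h2.1, h2.2, h3.1, h3.2]
    · rw [zd_none] at h2
      have h4 := sA_nonneg A (u i)
      have h5 := one_le_two_pow' n
      linarith [h2.1, h2.2, h3.1, h3.2]

theorem ZCorr.level_le (hU : EP U) (hu : DenseRange u) (h : ZCorr u A B η S) (hη : η ≤ 1 / 10)
    {i n k m : ℕ} (hS : S (some (i, n)) (some (k, m))) : m ≤ n := by
  by_contra hlt
  push Not at hlt
  have h1 : (2 : ℝ) * 2 ^ n ≤ 2 ^ m := by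
    rw [mul_comm, ← pow_succ]
    exact pow_le_pow_right₀ one_le_two hlt
  have h1' := one_le_two_pow' n
  obtain ⟨k', hk'⟩ := exists_zd hU hu B k m (r := 3 / 2 * 2 ^ n) (by positivity) (by linarith)
  obtain ⟨p', hp'⟩ := h.right (some (k', m))
  have h2 := abs_lt.1 (h.dist_lt _ _ _ _ hS hp')
  have h3 := abs_lt.1 hk'
  rcases p' with _ | ⟨i', n'⟩
  · rw [zd_none'] at h2
    have h4 := sA_nonneg A (u i)
    linarith [h2.1, h2.2, h3.1, h3.2]
  · by_cases hn : n = n'
    · subst hn
      rw [zd_same] at h2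
      have h4 : 2 ^ n * min 1 (dist (u i) (u i')) ≤ 2 ^ n * 1 :=
        mul_le_mul_of_nonneg_left (min_le_left _ _) (by positivity)
      linarith [h2.1, h2.2, h3.1, h3.2]
    · rw [zd_ne u A hn] at h2
      have h4 : (2 : ℝ) ^ n ≤ 2 ^ (max n n') := pow_le_pow_right₀ one_le_two (le_max_left _ _)
      have h5 : 0 ≤ min 1 (2 ^ (min n n') * dist (u i) (u i')) := by positivity
      linarith [h2.1, h2.2, h3.1, h3.2]

theorem ZCorr.exists_level (hU : EP U) (hu : DenseRange u) (h : ZCorr u A B η S)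
    (hη : η ≤ 1 / 10) (i n : ℕ) : ∃ k, S (some (i, n)) (some (k, n)) := by
  obtain ⟨q, hq⟩ := h.left (some (i, n))
  rcases q with _ | ⟨k, m⟩
  · have := h.flip.none_of hU hu hη hq
    exact absurd this (by simp)
  · have h1 := h.level_le hU hu hη hq
    have h2 := h.flip.level_le hU hu hη hq
    obtain rfl : n = m := le_antisymm h2 h1
    exact ⟨k, hq⟩

theorem ZCorr.none_none (hU : EP U) (hu : DenseRange u) (h : ZCorr u A B η S)
    (hη : η ≤ 1 / 10) : S none none := by
  obtain ⟨q, hq⟩ := h.left none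
  have := h.none_of hU hu hη hq
  rwa [this] at hq

/-- The limit relation of a correspondence. -/
def LimRel (u : ℕ → U) (S : Option (ℕ × ℕ) → Option (ℕ × ℕ) → Prop) (C : ℝ) (x y : U) : Prop :=
  ∀ n : ℕ, ∃ i k, S (some (i, n)) (some (k, n)) ∧ dist (u i) x ≤ C / 2 ^ n ∧
    dist (u k) y ≤ C / 2 ^ n

theorem ZCorr.exists_limRel [CompleteSpace U] (hU : EP U) (hu : DenseRange u)
    (h : ZCorr u A B η S) (hη0 : 0 < η) (hη : η ≤ 1 / 10) (x : U) :
    ∃ y, LimRel u S (5 * η) x y := by
  have h1 : ∀ n : ℕ, ∃ i, dist x (u i) < η / 2 ^ n := fun n =>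
    hu.exists_dist_lt x (by positivity)
  choose i hi using h1
  choose k hk using fun n => h.exists_level hU hu hη (i n) n
  have hstep : ∀ n, dist (u (k n)) (u (k (n + 1))) ≤ 5 * η / 2 / 2 ^ n := by
    intro n
    have hp : (0 : ℝ) < 2 ^ n := by positivity
    have h2 := abs_lt.1 (h.dist_lt _ _ _ _ (hk n) (hk (n + 1)))
    have hne : n ≠ n + 1 := by omega
    rw [zd_ne u A hne, zd_ne u B hne, add_sub_add_left_eq_sub, min_eq_left (Nat.le_succ n)] at h2
    have h3 : dist (u (i n)) (u (i (n + 1))) < η / 2 ^ n + η / 2 ^ (n + 1) := by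
      have t := dist_triangle_left (u (i n)) (u (i (n + 1))) x
      linarith [hi n, hi (n + 1)]
    have h4 : (2 : ℝ) ^ n * dist (u (i n)) (u (i (n + 1))) < 3 / 2 * η := by
      calc (2 : ℝ) ^ n * dist (u (i n)) (u (i (n + 1))) <
            2 ^ n * (η / 2 ^ n + η / 2 ^ (n + 1)) := mul_lt_mul_of_pos_left h3 hp
        _ = 3 / 2 * η := by
          rw [pow_succ]
          field_simp
          ring
    have h5 := min_le_right 1 ((2 : ℝ) ^ n * dist (u (i n)) (u (i (n + 1))))
    have h6 : min 1 ((2 : ℝ) ^ n * dist (u (k n)) (u (k (n + 1)))) < 5 / 2 * η := by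
      linarith [h2.1]
    have h7 : (2 : ℝ) ^ n * dist (u (k n)) (u (k (n + 1))) < 5 / 2 * η := by
      rcases min_lt_iff.1 h6 with h8 | h8
      · linarith
      · exact h8
    rw [le_div_iff₀ hp, mul_comm]
    linarith
  have hc : CauchySeq fun n => u (k n) := cauchySeq_of_le_geometric_two hstep
  obtain ⟨y, hy⟩ := cauchySeq_tendsto_of_complete hc
  refine ⟨y, fun n => ⟨i n, k n, hk n, ?_, dist_le_of_le_geometric_two_of_tendsto hstep hy n⟩⟩
  rw [dist_comm]
  refine (hi n).le.trans ?_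
  have hp : (0 : ℝ) < 2 ^ n := by positivity
  exact div_le_div_of_nonneg_right (by linarith) hp.le

theorem LimRel.flip {C : ℝ} {x y : U} (h : LimRel u S C x y) :
    LimRel u (fun q p => S p q) C y x := fun n => by
  obtain ⟨i, k, h1, h2, h3⟩ := h n
  exact ⟨k, i, h1, h3, h2⟩

theorem ZCorr.min_eq (h : ZCorr u A B η S) {C : ℝ} {x y x' y' : U}
    (h1 : LimRel u S C x y) (h2 : LimRel u S C x' y') :
    min 1 (dist y y') = min 1 (dist x x') := by
  have key : ∀ n : ℕ, |min 1 (dist y y') - min 1 (dist x x')| ≤ (4 * C + η) * (1 / 2) ^ n := by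
    intro n
    have hp : (0 : ℝ) < 2 ^ n := by positivity
    obtain ⟨i, k, a1, a2, a3⟩ := h1 n
    obtain ⟨i', k', b1, b2, b3⟩ := h2 n
    have h3 := h.dist_lt _ _ _ _ a1 b1
    rw [zd_same, zd_same, ← mul_sub, abs_mul, abs_of_pos hp] at h3
    have h4 : |min 1 (dist (u i) (u i')) - min 1 (dist (u k) (u k'))| ≤ η / 2 ^ n := by
      rw [le_div_iff₀ hp, mul_comm]
      exact h3.le
    have h5 : ∀ (p p' q q' : U), dist p q ≤ C / 2 ^ n → dist p' q' ≤ C / 2 ^ n →
        |min 1 (dist p p') - min 1 (dist q q')| ≤ 2 * (C / 2 ^ n) := by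
      intro p p' q q' c1 c2
      refine (abs_min_sub_min_le _ _).trans ?_
      have := abs_dist_sub_dist_le (IsometryEquiv.refl U) p p' q q'
      refine this.trans ?_
      show dist p q + dist p' q' ≤ _
      linarith
    have h6 := abs_le.1 (h5 _ _ _ _ a2 b2)
    have h7 := abs_le.1 (h5 _ _ _ _ a3 b3)
    have h8 := abs_le.1 h4
    have e : (4 * C + η) * (1 / 2) ^ n = 4 * (C / 2 ^ n) + η / 2 ^ n := by
      rw [one_div, inv_pow]
      field_simp
    rw [e, abs_le]
    constructor <;> linarith [h6.1, h6.2, h7.1, h7.2, h8.1, h8.2]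
  have hlim : Filter.Tendsto (fun n : ℕ => (4 * C + η) * ((1 : ℝ) / 2) ^ n) Filter.atTop
      (nhds 0) := by
    have := (tendsto_pow_atTop_nhds_zero_of_lt_one (r := (1 : ℝ) / 2) (by norm_num)
      (by norm_num)).const_mul (4 * C + η)
    rwa [mul_zero] at this
  have h9 : |min 1 (dist y y') - min 1 (dist x x')| ≤ 0 :=
    ge_of_tendsto' hlim key
  have h10 := le_antisymm h9 (abs_nonneg _)
  rw [abs_eq_zero] at h10
  linarith

theorem eq_of_min_eq_zero {x y : U} (h : min 1 (dist x y) = 0) : x = y := by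
  rcases le_total 1 (dist x y) with h1 | h1
  · rw [min_eq_left h1] at h
    linarith
  · rw [min_eq_right h1] at h
    exact dist_eq_zero.1 h

/-- A correspondence of the codes gives an isometry. -/
theorem ZCorr.exists_isometry [CompleteSpace U] (hU : EP U) (hu : DenseRange u)
    (h : ZCorr u A B η S) (hη0 : 0 < η) (hη : η ≤ 1 / 10) :
    ∃ e : U ≃ᵢ U, ∀ x, LimRel u S (5 * η) x (e x) := by
  choose T hT using fun x => h.exists_limRel hU hu hη0 hη x
  choose T' hT' using fun y => h.flip.exists_limRel hU hu hη0 hη y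
  have hT'' : ∀ y, LimRel u S (5 * η) (T' y) y := fun y => (hT' y).flip
  have h1 : ∀ y, T (T' y) = y := by
    intro y
    apply eq_of_min_eq_zero
    rw [h.min_eq (hT (T' y)) (hT'' y), dist_self]
    simp
  have h2 : ∀ x, T' (T x) = x := by
    intro x
    apply eq_of_min_eq_zero
    rw [← h.min_eq (hT'' (T x)) (hT x), dist_self]
    simp
  have m1 : ∀ x y, min 1 (dist (T x) (T y)) = min 1 (dist x y) := fun x y =>
    h.min_eq (hT x) (hT y)
  have m2 : ∀ x y, min 1 (dist (T' x) (T' y)) = min 1 (dist x y) := fun x y =>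
    (h.min_eq (hT'' x) (hT'' y)).symm
  have hiso : Isometry T := by
    refine Isometry.of_dist_eq fun x y => le_antisymm (hU.dist_le_of_local m1 x y) ?_
    have := hU.dist_le_of_local m2 (T x) (T y)
    rwa [h2, h2] at this
  exact ⟨⟨⟨T, T', h2, h1⟩, hiso⟩, hT⟩

theorem ZCorr.exists_mem (hU : EP U) (hu : DenseRange u) (h : ZCorr u A B η S)
    (hη0 : 0 < η) (hη : η ≤ 1 / 10) {x y : U} (hxy : LimRel u S (5 * η) x y) (hx : x ∈ A.1) :
    ∃ b ∈ B.1, dist y b ≤ 11 * η := by
  obtain ⟨i, k, h1, h2, h3⟩ := hxy 0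
  rw [pow_zero, div_one] at h2 h3
  have h4 := abs_lt.1 (h.dist_lt _ _ _ _ (h.none_none hU hu hη) h1)
  rw [zd_none, zd_none, add_sub_add_left_eq_sub] at h4
  have h5 := sA_le_add A (u i) x
  rw [sA_of_mem hx] at h5
  have h6 : sA B (u k) < 6 * η := by linarith [h4.1]
  obtain ⟨b, hb, hkb⟩ := exists_of_sA_lt (by linarith) h6
  refine ⟨b, hb, ?_⟩
  have := dist_triangle_left y b (u k)
  linarith

theorem rhoU_le_of_zcorr [CompleteSpace U] (hU : EP U) (hu : DenseRange u)
    (h : ZCorr u A B η S) (hη0 : 0 < η) (hη : η ≤ 1 / 10) :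
    rhoU U A B ≤ ENNReal.ofReal (11 * η) := by
  obtain ⟨e, he⟩ := h.exists_isometry hU hu hη0 hη
  refine (rhoU_le e).trans (hausdorffEDist_le_of_mem_edist ?_ ?_)
  · rintro _ ⟨x, hx, rfl⟩
    obtain ⟨b, hb, hyb⟩ := h.exists_mem hU hu hη0 hη (he x) hx
    refine ⟨b, hb, ?_⟩
    rw [edist_dist]
    exact ENNReal.ofReal_le_ofReal hyb
  · intro y hy
    have h1 := he (e.symm y)
    rw [e.apply_symm_apply] at h1
    obtain ⟨a, ha, hya⟩ := h.flip.exists_mem hU hu hη0 hη h1.flip hy
    refine ⟨e a, ⟨a, ha, rfl⟩, ?_⟩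
    rw [← e.dist_eq, e.apply_symm_apply] at hya
    rw [edist_dist]
    exact ENNReal.ofReal_le_ofReal hya

end

/-- **The orbit pseudometric reduces to the Gromov-Hausdorff distance.** -/
theorem orbit_reduces {U : Type} [MetricSpace U] (h : IsUrysohn U) :
    BorelUnif (rhoU U) rhoGH := by
  have := h.complete
  have := h.separable
  obtain ⟨u, hi, hu⟩ := h.ep.exists_dense
  refine ⟨zmet hi, measurable_zmet hi, fun ε hε => ⟨ε / 2, min (1 / 20) (ε / 23), by positivity,
    by positivity, fun A B => ⟨fun h1 => ?_, fun h1 => ?_⟩⟩⟩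
  · refine (rhoGH_zmet_le hi hu (by positivity) h1).trans_lt ?_
    rw [ENNReal.ofReal_lt_ofReal_iff hε]
    linarith
  · have hδ0 : 0 < min (1 / 20) (ε / 23) := by positivity
    have hδ1 := min_le_left (1 / 20) (ε / 23)
    have hδ2 := min_le_right (1 / 20) (ε / 23)
    obtain ⟨R, r1, r2, r3⟩ := exists_corr h1
    have hz : ZCorr u A B (2 * min (1 / 20) (ε / 23)) (fun p q => R (ix.symm p) (ix.symm q)) := by
      refine ⟨fun p => ?_, fun q => ?_, fun p q p' q' h2 h3 => ?_⟩
      · obtain ⟨b, hb⟩ := r1 (ix.symm p)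
        exact ⟨ix b, by rwa [ix.symm_apply_apply]⟩
      · obtain ⟨a, ha⟩ := r2 (ix.symm q)
        exact ⟨ix a, by rwa [ix.symm_apply_apply]⟩
      · have := r3 _ _ _ _ h2 h3
        simpa only [zmet, ix.apply_symm_apply] using this
    refine (rhoU_le_of_zcorr h.ep hu hz (by positivity) (by linarith)).trans_lt ?_
    rw [ENNReal.ofReal_lt_ofReal_iff hε]
    linarith

end Pool.Agent.Helper89.UG
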