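import Pool.Agent.Helper89.UG.Hedge

/-!
The reduction of the Gromov-Hausdorff distance to the orbit pseudometric.
-/

set_option autoImplicit false

open Set Metric TopologicalSpace
open scoped ENNReal NNReal

namespace Pool.Agent.Helper89.UG

/-! ### Correspondences and permutations -/

theorem exists_fiber (R : ℕ → ℕ → Prop) (h : ∀ i, ∃ j, R i j) :
    ∃ e : {q : ℕ × ℕ × ℕ // R q.1 q.2.1} ≃ ℕ × ℕ, ∀ q, (e q).1 = q.1.1 := by
  have key : ∀ i, Nonempty ({p : ℕ × ℕ // R i p.1} ≃ ℕ) := by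
    intro i
    obtain ⟨j, hj⟩ := h i
    have : Infinite {p : ℕ × ℕ // R i p.1} :=
      Infinite.of_injective (fun n : ℕ => (⟨(j, n), hj⟩ : {p : ℕ × ℕ // R i p.1}))
        (fun a b hab => by simpa using hab)
    obtain ⟨d⟩ := nonempty_denumerable {p : ℕ × ℕ // R i p.1}
    exact ⟨Denumerable.eqv _⟩
  let e : ∀ i, {p : ℕ × ℕ // R i p.1} ≃ ℕ := fun i => (key i).some
  refine ⟨⟨fun q => (q.1.1, e q.1.1 ⟨q.1.2, q.2⟩),
    fun n => ⟨(n.1, ((e n.1).symm n.2).1), ((e n.1).symm n.2).2⟩, ?_, ?_⟩, fun q => rfl⟩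
  · rintro ⟨⟨i, p⟩, hq⟩
    simp
  · rintro ⟨i, n⟩
    simp

theorem exists_perm (R : ℕ → ℕ → Prop) (h1 : ∀ i, ∃ j, R i j) (h2 : ∀ j, ∃ i, R i j) :
    ∃ π : V ≃ V, ∀ a, R a.1 (π a).1 := by
  obtain ⟨e1, he1⟩ := exists_fiber R h1
  obtain ⟨e2, he2⟩ := exists_fiber (fun j i => R i j) h2
  let s : {q : ℕ × ℕ × ℕ // R q.1 q.2.1} ≃ {q : ℕ × ℕ × ℕ // R q.2.1 q.1} :=
    ⟨fun q => ⟨(q.1.2.1, q.1.1, q.1.2.2), q.2⟩, fun q => ⟨(q.1.2.1, q.1.1, q.1.2.2), q.2⟩,
      fun q => rfl, fun q => rfl⟩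
  refine ⟨(e1.symm.trans s).trans e2, fun a => ?_⟩
  have h3 : a.1 = (e1.symm a).1.1 := by rw [← he1, e1.apply_symm_apply]
  have h4 : (((e1.symm.trans s).trans e2) a).1 = (e1.symm a).1.2.1 := by
    show (e2 (s (e1.symm a))).1 = _
    rw [he2]
    rfl
  rw [h3, h4]
  exact (e1.symm a).2

section

variable {U : Type} [MetricSpace U] {j : Hg → U}

/-- The closed set which codes the metric `f`. -/
noncomputable def code (hj : Isometry j) (f : Met) : Clo U :=
  ⟨j '' pts f, isClosed_of_pairwise_le_dist (ε := 5) (by norm_num) (by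
    rintro _ ⟨x, hx, rfl⟩ _ ⟨y, hy, rfl⟩ hne
    rw [hj.dist_eq]
    exact pts_pairwise f hx hy (fun e => hne (by rw [e])))⟩

theorem measurable_code (hj : Isometry j) : Measurable (code hj) := by
  refine measurable_generateFrom ?_
  rintro _ ⟨O, hO, rfl⟩
  have hcont : ∀ i k : ℕ, Continuous fun f : Met => f.1 i k := fun i k =>
    (continuous_apply k).comp ((continuous_apply i).comp continuous_subtype_val)
  have e : (code hj) ⁻¹' {A : Clo U | (A.1 ∩ O).Nonempty} =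
      {f : Met | ∃ a, j (vp a) ∈ O} ∪ ⋃ a : V, ⋃ b : V, {f : Met | j (pp f a b) ∈ O} := by
    ext f
    simp only [mem_preimage, mem_ofPred_eq, mem_union, mem_iUnion, code]
    constructor
    · rintro ⟨_, ⟨x, hx, rfl⟩, hO'⟩
      rcases hx with ⟨a, rfl⟩ | ⟨a, b, rfl⟩
      · exact Or.inl ⟨a, hO'⟩
      · exact Or.inr ⟨a, b, hO'⟩
    · rintro (⟨a, h⟩ | ⟨a, b, h⟩)
      · exact ⟨_, ⟨_, vp_mem f a, rfl⟩, h⟩
      · exact ⟨_, ⟨_, pp_mem f a b, rfl⟩, h⟩
  rw [e]
  have hopen : IsOpen ({f : Met | ∃ a, j (vp a) ∈ O} ∪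
      ⋃ a : V, ⋃ b : V, {f : Met | j (pp f a b) ∈ O}) := by
    refine IsOpen.union ?_ (isOpen_iUnion fun a => isOpen_iUnion fun b => ?_)
    · exact isOpen_const
    · have hc : Continuous fun f : Met => j (pp f a b) := by
        refine hj.continuous.comp ?_
        exact (isometry_ray (.inr (a, b))).continuous.comp
          (continuous_real_toNNReal.comp (hcont a.1 b.1))
      exact hO.preimage hc
  exact MeasurableSpace.measurableSet_generateFrom hopen

theorem rhoU_code_le (hj : Isometry j)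
    (hext : ∀ T : Hg ≃ᵢ Hg, ∃ g : U ≃ᵢ U, ∀ x, g (j x) = j (T x)) {f g : Met} {δ : ℝ}
    (h : rhoGH f g < ENNReal.ofReal δ) :
    rhoU U (code hj f) (code hj g) ≤ ENNReal.ofReal (2 * δ) := by
  obtain ⟨R, h1, h2, h3⟩ := exists_corr h
  obtain ⟨π, hπ⟩ := exists_perm R h1 h2
  obtain ⟨e, he⟩ := hext (actH π)
  have hdist : ∀ a b, edist (j (⟨.inr (π a, π b), tv f a b⟩ : Hg)) (j (pp g (π a) (π b))) ≤
      ENNReal.ofReal (2 * δ) := by
    intro a b
    rw [hj.edist_eq, edist_dist, pp, dist_same, coe_tv, coe_tv]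
    exact ENNReal.ofReal_le_ofReal (h3 _ _ _ _ (hπ a) (hπ b)).le
  refine (rhoU_le e).trans (hausdorffEDist_le_of_mem_edist ?_ ?_)
  · rintro _ ⟨_, ⟨x, hx, rfl⟩, rfl⟩
    rw [he]
    rcases hx with ⟨a, rfl⟩ | ⟨a, b, rfl⟩
    · refine ⟨_, ⟨_, vp_mem g (π a), rfl⟩, ?_⟩
      have : actH π (vp a) = vp (π a) := rfl
      rw [this, edist_self]
      exact zero_le
    · exact ⟨_, ⟨_, pp_mem g (π a) (π b), rfl⟩, hdist a b⟩
  · rintro _ ⟨x, hx, rfl⟩
    rcases hx with ⟨a, rfl⟩ | ⟨a, b, rfl⟩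
    · refine ⟨_, ⟨_, ⟨_, vp_mem f (π.symm a), rfl⟩, rfl⟩, ?_⟩
      have : actH π (vp (π.symm a)) = vp a := by
        show vp (π (π.symm a)) = vp a
        rw [Equiv.apply_symm_apply]
      rw [he, this, edist_self]
      exact zero_le
    · refine ⟨_, ⟨_, ⟨_, pp_mem f (π.symm a) (π.symm b), rfl⟩, rfl⟩, ?_⟩
      have := hdist (π.symm a) (π.symm b)
      rw [Equiv.apply_symm_apply, Equiv.apply_symm_apply] at this
      rw [he, edist_comm]
      have e1 : actH π (pp f (π.symm a) (π.symm b)) =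
          (⟨.inr (a, b), tv f (π.symm a) (π.symm b)⟩ : Hg) := by
        show (⟨.inr (π (π.symm a), π (π.symm b)), tv f (π.symm a) (π.symm b)⟩ : Hg) = _
        rw [Equiv.apply_symm_apply, Equiv.apply_symm_apply]
      rw [e1]
      exact this

/-! ### Decoding -/

/-- A correspondence between the codes with distortion less than `η`. -/
structure Corr (f g : Met) (η : ℝ) (S : Hg → Hg → Prop) : Prop where
  left : ∀ x ∈ pts f, ∃ y ∈ pts g, S x y
  right : ∀ y ∈ pts g, ∃ x ∈ pts f, S x y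
  dist_lt : ∀ x y x' y', S x y → S x' y' → |dist x x' - dist y y'| < η

theorem Corr.flip {f g : Met} {η : ℝ} {S : Hg → Hg → Prop} (h : Corr f g η S) :
    Corr g f η (fun y x => S x y) where
  left := h.right
  right := h.left
  dist_lt y x y' x' h1 h2 := by
    rw [abs_sub_comm]
    exact h.dist_lt x y x' y' h1 h2

theorem Corr.vp_of {f g : Met} {η : ℝ} {S : Hg → Hg → Prop} (h : Corr f g η S) (hη : η ≤ 1 / 10)
    {a : V} {y : Hg} (hy : y ∈ pts g) (hS : S (vp a) y) : ∃ a', y = vp a' := by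
  rcases hy with ⟨a', rfl⟩ | ⟨c, d, rfl⟩
  · exact ⟨a', rfl⟩
  · exfalso
    have hne : a ≠ (a.1 + 1, a.2) := by
      intro e
      have := congrArg Prod.fst e
      simp at this
    obtain ⟨y', hy', hS'⟩ := h.left _ (vp_mem f (a.1 + 1, a.2))
    have h1 := h.dist_lt _ _ _ _ hS hS'
    rw [dist_vp hne, abs_lt] at h1
    rcases hy' with ⟨b, rfl⟩ | ⟨c', d', rfl⟩
    · rw [dist_comm, dist_vp_pp] at h1
      have := g.nonneg c.1 d.1
      split_ifs at h1 <;> linarith [h1.1, h1.2]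
    · by_cases e : (c, d) = (c', d')
      · obtain ⟨rfl, rfl⟩ := Prod.mk.inj e
        rw [dist_self] at h1
        linarith [h1.1, h1.2]
      · have := dist_pp g e
        linarith [h1.1, h1.2]

theorem Corr.exists_vp {f g : Met} {η : ℝ} {S : Hg → Hg → Prop} (h : Corr f g η S)
    (hη : η ≤ 1 / 10) (a : V) : ∃ a', S (vp a) (vp a') := by
  obtain ⟨y, hy, hS⟩ := h.left _ (vp_mem f a)
  obtain ⟨a', rfl⟩ := h.vp_of hη hy hS
  exact ⟨a', hS⟩

theorem Corr.unique {f g : Met} {η : ℝ} {S : Hg → Hg → Prop} (h : Corr f g η S)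
    (hη : η ≤ 1 / 10) {a b c : V} (h1 : S (vp a) (vp b)) (h2 : S (vp a) (vp c)) : b = c := by
  by_contra hne
  have := h.dist_lt _ _ _ _ h1 h2
  rw [dist_self, dist_vp hne, abs_lt] at this
  linarith [this.1, this.2]

/-- The values of the two metrics are close. -/
theorem Corr.close {f g : Met} {η : ℝ} {S : Hg → Hg → Prop} (h : Corr f g η S)
    (hη : η ≤ 1 / 10) {a b a' b' : V} (hab : a ≠ b) (ha : S (vp a) (vp a'))
    (hb : S (vp b) (vp b')) : |f.1 a.1 b.1 - g.1 a'.1 b'.1| < η := by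
  obtain ⟨y, hy, hS⟩ := h.left _ (pp_mem f a b)
  rcases hy with ⟨z, rfl⟩ | ⟨c, d, rfl⟩
  · exfalso
    obtain ⟨a'', ha''⟩ := h.flip.vp_of hη (pp_mem f a b) hS
    exact absurd (congrArg Hg.p ha'') (by simp [pp, vp])
  · obtain ⟨c0, hc0⟩ := h.flip.exists_vp hη c
    obtain ⟨d0, hd0⟩ := h.flip.exists_vp hη d
    obtain ⟨v, hv⟩ := Infinite.exists_notMem_finset ({a, b, c0, d0} : Finset V)
    simp only [Finset.mem_insert, Finset.mem_singleton, not_or] at hv
    obtain ⟨hva, hvb, hvc, hvd⟩ := hv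
    obtain ⟨v', hv'⟩ := h.exists_vp hη v
    have hv'c : v' ≠ c := by
      rintro rfl
      exact hvc (h.flip.unique hη hv' hc0)
    have hv'd : v' ≠ d := by
      rintro rfl
      exact hvd (h.flip.unique hη hv' hd0)
    have e1 := h.dist_lt _ _ _ _ hv' hS
    rw [dist_vp_pp, dist_vp_pp, if_neg hva, if_neg hvb, if_neg hv'c, if_neg hv'd, abs_lt] at e1
    have e2 := h.dist_lt _ _ _ _ ha hS
    rw [dist_vp_pp, dist_vp_pp, if_pos rfl, abs_lt] at e2
    have e3 := h.dist_lt _ _ _ _ hb hS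
    rw [dist_vp_pp, dist_vp_pp, if_neg (Ne.symm hab), if_pos rfl, abs_lt] at e3
    have hac : a' = c := by
      by_contra hne
      rw [if_neg hne] at e2
      split_ifs at e2 <;> linarith [e1.1, e1.2, e2.1, e2.2]
    have hbd : b' = d := by
      by_contra hne
      rw [if_neg hne] at e3
      split_ifs at e3 <;> linarith [e1.1, e1.2, e3.1, e3.2]
    subst hac
    subst hbd
    rw [abs_lt]
    constructor <;> linarith [e1.1, e1.2]

theorem rhoGH_le_of_code (hj : Isometry j) {f g : Met} {δ : ℝ} (hδ0 : 0 < δ) (hδ : δ ≤ 1 / 20)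
    (h : rhoU U (code hj f) (code hj g) < ENNReal.ofReal δ) : rhoGH f g ≤ ENNReal.ofReal δ := by
  obtain ⟨e, he⟩ := exists_of_rhoU_lt h
  let S : Hg → Hg → Prop := fun x y => dist (e (j x)) (j y) < δ
  have hS : Corr f g (2 * δ) S := by
    refine ⟨fun x hx => ?_, fun y hy => ?_, fun x y x' y' h1 h2 => ?_⟩
    · obtain ⟨_, ⟨y, hy, rfl⟩, hxy⟩ := exists_edist_lt_of_hausdorffEDist_lt
        (show e (j x) ∈ e '' (j '' pts f) from ⟨_, ⟨x, hx, rfl⟩, rfl⟩) he
      rw [edist_lt_ofReal] at hxy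
      exact ⟨y, hy, hxy⟩
    · rw [hausdorffEDist_comm] at he
      obtain ⟨_, ⟨_, ⟨x, hx, rfl⟩, rfl⟩, hxy⟩ := exists_edist_lt_of_hausdorffEDist_lt
        (show j y ∈ j '' pts g from ⟨y, hy, rfl⟩) he
      rw [edist_lt_ofReal, dist_comm] at hxy
      exact ⟨x, hx, hxy⟩
    · have h1' : dist (e (j x)) (j y) < δ := h1
      have h2' : dist (e (j x')) (j y') < δ := h2
      have t1 := dist_triangle4 (e (j x)) (j y) (j y') (e (j x'))
      have t2 := dist_triangle4 (j y) (e (j x)) (e (j x')) (j y')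
      rw [e.dist_eq, hj.dist_eq, hj.dist_eq, dist_comm (j y')] at t1
      rw [e.dist_eq, hj.dist_eq, hj.dist_eq, dist_comm (j y)] at t2
      rw [abs_lt]
      constructor <;> linarith
  have hη : 2 * δ ≤ 1 / 10 := by linarith
  refine rhoGH_le_of_corr hδ0 (fun n m => ∃ i k, S (vp (n, i)) (vp (m, k))) ?_ ?_ ?_
  · intro n
    obtain ⟨⟨m, k⟩, h1⟩ := hS.exists_vp hη (n, 0)
    exact ⟨m, 0, k, h1⟩
  · intro m
    obtain ⟨⟨n, i⟩, h1⟩ := hS.flip.exists_vp hη (m, 0)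
    exact ⟨n, i, 0, h1⟩
  · rintro n m n' m' ⟨i, k, h1⟩ ⟨i', k', h2⟩
    by_cases hne : (n, i) = (n', i')
    · obtain ⟨rfl, rfl⟩ := Prod.mk.inj hne
      obtain ⟨rfl, rfl⟩ := Prod.mk.inj (hS.unique hη h1 h2)
      rw [f.2.1, g.2.1, sub_self, abs_zero]
      linarith
    · exact (hS.close hη hne h1 h2).le

end

/-- **The Gromov-Hausdorff distance reduces to the orbit pseudometric.** -/
theorem gh_reduces {U : Type} [MetricSpace U] (h : IsUrysohn U) : BorelUnif rhoGH (rhoU U) := by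
  obtain ⟨j, hj, hext⟩ := h.exists_copy Hg
  refine ⟨code hj, measurable_code hj, fun ε hε => ⟨ε / 4, min (1 / 20) (ε / 2), by positivity,
    by positivity, fun f g => ⟨fun h1 => ?_, fun h1 => ?_⟩⟩⟩
  · refine (rhoU_code_le hj hext h1).trans_lt ?_
    rw [ENNReal.ofReal_lt_ofReal_iff hε]
    linarith
  · refine (rhoGH_le_of_code hj (by positivity) (min_le_left _ _) h1).trans_lt ?_
    rw [ENNReal.ofReal_lt_ofReal_iff hε]
    exact (min_le_right _ _).trans_lt (by linarith)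

end Pool.Agent.Helper89.UG
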