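import Pool.Agent.Helper89.UG.Kat

/-!
The tower of Katetov extensions, its limit and its completion, with the action of isometries.
-/

set_option autoImplicit false

open Set Metric

namespace Pool.Agent.Helper89.UG

/-- A metric space, bundled. -/
structure MS where
  α : Type
  inst : MetricSpace α

attribute [instance] MS.inst

/-- The tower of Katetov extensions. -/
noncomputable def lvl (X : Type) [MetricSpace X] : ℕ → MS
  | 0 => ⟨X, inferInstance⟩
  | n + 1 => ⟨Kat (lvl X n).α, inferInstance⟩

section

variable (X : Type) [MetricSpace X]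

/-- The embeddings of the tower. -/
noncomputable def stp (n : ℕ) (x : (lvl X n).α) : (lvl X (n + 1)).α :=
  Kat.kappa (X := (lvl X n).α) x

theorem isometry_stp (n : ℕ) : Isometry (stp X n) := Kat.isometry_kappa

/-- The union of the tower. -/
def Lim : Type := Σ n, (lvl X n).α

noncomputable instance : PseudoMetricSpace (Lim X) := Metric.inductivePremetric (isometry_stp X)

variable {X}

/-- The embedding of a level. -/
def emb (n : ℕ) (x : (lvl X n).α) : Lim X := ⟨n, x⟩

theorem dist_lim (x y : Lim X) (m : ℕ) (hx : x.1 ≤ m) (hy : y.1 ≤ m) :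
    dist x y = dist (Nat.leRecOn hx (stp X _) x.2 : (lvl X m).α)
      (Nat.leRecOn hy (stp X _) y.2 : (lvl X m).α) :=
  Metric.inductiveLimitDist_eq_dist (isometry_stp X) x y m hx hy

theorem dist_emb_emb {n m k : ℕ} (hn : n ≤ k) (hm : m ≤ k) (x : (lvl X n).α) (y : (lvl X m).α) :
    dist (emb n x) (emb m y) = dist (Nat.leRecOn hn (stp X _) x : (lvl X k).α)
      (Nat.leRecOn hm (stp X _) y : (lvl X k).α) :=
  dist_lim (emb n x) (emb m y) k hn hm

theorem exists_eq_emb (x : Lim X) : ∃ n y, x = emb n y := ⟨x.1, x.2, rfl⟩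

theorem dist_emb (n : ℕ) (x y : (lvl X n).α) : dist (emb n x) (emb n y) = dist x y := by
  rw [dist_lim (emb n x) (emb n y) n le_rfl le_rfl]
  simp only [emb, Nat.leRecOn_self]

theorem isometry_emb (n : ℕ) : Isometry (emb (X := X) n) :=
  Isometry.of_dist_eq fun x y => dist_emb n x y

theorem dist_emb_stp (n : ℕ) (x : (lvl X n).α) : dist (emb n x) (emb (n + 1) (stp X n x)) = 0 := by
  rw [dist_lim (emb n x) (emb (n + 1) (stp X n x)) (n + 1) (Nat.le_succ n) le_rfl]
  simp only [emb, Nat.leRecOn_self]
  rw [Nat.leRecOn_succ (h1 := le_refl n), Nat.leRecOn_self, dist_self]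

theorem exists_level (x : Lim X) (m : ℕ) (hx : x.1 ≤ m) :
    ∃ y : (lvl X m).α, dist x (emb m y) = 0 := by
  refine ⟨Nat.leRecOn hx (stp X _) x.2, ?_⟩
  rw [dist_lim x _ m hx le_rfl]
  simp only [emb, Nat.leRecOn_self, dist_self]

theorem dist_of_zero {Z : Type*} [PseudoMetricSpace Z] {a b c d : Z} (h1 : dist a b = 0)
    (h2 : dist c d = 0) : dist a c = dist b d := by
  apply le_antisymm
  · have := dist_triangle4 a b d c
    rw [h1, dist_comm d c, h2] at this
    linarith
  · have := dist_triangle4 b a c d
    rw [dist_comm b a, h1, h2] at this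
    linarith

/-- The union of the tower has the extension property. -/
theorem ep_lim [Nonempty X] : EP (Lim X) := by
  intro ι _ x φ h
  rcases isEmpty_or_nonempty ι with hι | hι
  · obtain ⟨x0⟩ := ‹Nonempty X›
    exact ⟨emb 0 x0, fun i => hι.elim i⟩
  · have := Fintype.ofFinite ι
    let m := Finset.univ.sup fun i => (x i).1
    have hm : ∀ i, (x i).1 ≤ m := fun i => Finset.le_sup (f := fun i => (x i).1) (Finset.mem_univ i)
    choose y hy using fun i => exists_level (x i) m (hm i)
    have hdist : ∀ i j, dist (x i) (x j) = dist (y i) (y j) := by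
      intro i j
      rw [← dist_emb m (y i) (y j)]
      exact dist_of_zero (hy i) (hy j)
    have hk : KatAt y φ := ⟨fun i j => by rw [← hdist]; exact h.1 i j,
      fun i j => by rw [← hdist]; exact h.2 i j⟩
    obtain ⟨f, hf⟩ : ∃ f : (lvl X (m + 1)).α, ∀ i, dist f (stp X m (y i)) = φ i :=
      Kat.exists_of_katAt y φ hk
    refine ⟨emb (m + 1) f, fun i => ?_⟩
    have h1 : dist (x i) (emb (m + 1) (stp X m (y i))) = 0 := by
      have := dist_of_zero (a := x i) (b := emb m (y i)) (c := emb (m + 1) (stp X m (y i)))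
        (d := emb (m + 1) (stp X m (y i))) (hy i) (dist_self _)
      rw [this, dist_emb_stp]
    rw [dist_of_zero (dist_self (emb (m + 1) f)) h1, dist_emb]
    exact hf i

theorem separable_lvl [TopologicalSpace.SeparableSpace X] (n : ℕ) :
    TopologicalSpace.SeparableSpace (lvl X n).α := by
  induction n with
  | zero => exact ‹TopologicalSpace.SeparableSpace X›
  | succ n ih => exact Kat.separable (X := (lvl X n).α)

theorem separable_lim [TopologicalSpace.SeparableSpace X] :
    TopologicalSpace.SeparableSpace (Lim X) := by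
  have h : TopologicalSpace.IsSeparable (⋃ n, range (emb (X := X) n)) := by
    refine TopologicalSpace.IsSeparable.iUnion fun n => ?_
    have := separable_lvl (X := X) n
    exact TopologicalSpace.isSeparable_range (isometry_emb n).continuous
  have huniv : (⋃ n, range (emb (X := X) n)) = univ :=
    eq_univ_of_forall fun x => mem_iUnion.2 ⟨x.1, x.2, rfl⟩
  rw [huniv] at h
  exact TopologicalSpace.isSeparable_univ_iff.1 h

/-- The action of an isometry of `X` on the levels. -/
noncomputable def act (T : X ≃ᵢ X) : ∀ n, (lvl X n).α ≃ᵢ (lvl X n).α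
  | 0 => T
  | n + 1 => Kat.mapEquiv (act T n)

theorem act_stp (T : X ≃ᵢ X) (n : ℕ) (x : (lvl X n).α) :
    act T (n + 1) (stp X n x) = stp X n (act T n x) :=
  Kat.map_kappa (X := (lvl X n).α) (act T n) x

theorem act_leRecOn (T : X ≃ᵢ X) {n m : ℕ} (h : n ≤ m) (x : (lvl X n).α) :
    act T m (Nat.leRecOn h (stp X _) x) = Nat.leRecOn h (stp X _) (act T n x) := by
  induction m, h using Nat.le_induction with
  | base => simp only [Nat.leRecOn_self]
  | succ m h ih =>
    rw [Nat.leRecOn_succ h, Nat.leRecOn_succ h, act_stp, ih]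

/-- The action of an isometry on the union. -/
noncomputable def actLim (T : X ≃ᵢ X) (x : Lim X) : Lim X := ⟨x.1, act T x.1 x.2⟩

theorem actLim_emb (T : X ≃ᵢ X) (n : ℕ) (x : (lvl X n).α) :
    actLim T (emb n x) = emb n (act T n x) := rfl

theorem isometry_actLim (T : X ≃ᵢ X) : Isometry (actLim T) := by
  refine Isometry.of_dist_eq fun x y => ?_
  obtain ⟨n, x, rfl⟩ := exists_eq_emb x
  obtain ⟨m, y, rfl⟩ := exists_eq_emb y
  rw [actLim_emb, actLim_emb, dist_emb_emb (le_max_left n m) (le_max_right n m),
    dist_emb_emb (le_max_left n m) (le_max_right n m), ← act_leRecOn, ← act_leRecOn,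
    (act T _).dist_eq]

theorem act_symm (T : X ≃ᵢ X) (n : ℕ) (x : (lvl X n).α) : act T.symm n (act T n x) = x := by
  have key : ∀ n, act T.symm n = (act T n).symm := by
    intro n
    induction n with
    | zero => rfl
    | succ n ih =>
      show Kat.mapEquiv (act T.symm n) = (Kat.mapEquiv (act T n)).symm
      rw [ih]
      rfl
  rw [key, IsometryEquiv.symm_apply_apply]

theorem actLim_symm (T : X ≃ᵢ X) (x : Lim X) : actLim T.symm (actLim T x) = x := by
  obtain ⟨n, x, rfl⟩ := exists_eq_emb x
  rw [actLim_emb, actLim_emb, act_symm]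

end

/-! ### The completion -/

section Compl

variable {X : Type} [PseudoMetricSpace X]

open UniformSpace

theorem aep_completion (h : EP X) : AEP (Completion X) := by
  intro ι _ x φ hk ε hε
  rcases isEmpty_or_nonempty ι with hι | hι
  · obtain ⟨z, -⟩ := h ι (fun i => hι.elim i) φ ⟨fun i => hι.elim i, fun i => hι.elim i⟩
    exact ⟨z, fun i => hι.elim i⟩
  · obtain ⟨F, h1, h2, -⟩ := exists_katFun x φ hk
    have happ : ∀ i, ∃ y : X, dist (x i) (y : Completion X) < ε / 2 := by
      intro i
      have hd := (Completion.denseRange_coe (α := X)) (x i)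
      obtain ⟨_, ⟨y, rfl⟩, hy⟩ := Metric.mem_closure_iff.1 hd (ε / 2) (by positivity)
      exact ⟨y, hy⟩
    choose y hy using happ
    have hk' : KatAt y (fun i => F (y i)) := by
      refine ⟨fun i j => ?_, fun i j => ?_⟩
      · have := h1.1 (y i : Completion X) (y j)
        simpa only [id, Completion.dist_eq] using this
      · have := h1.2 (y i : Completion X) (y j)
        simpa only [id, Completion.dist_eq] using this
    obtain ⟨z, hz⟩ := h ι y _ hk'
    refine ⟨z, fun i => ?_⟩
    have e1 : dist (z : Completion X) (y i) = F (y i) := by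
      rw [Completion.dist_eq]
      exact hz i
    have e2 := abs_dist_sub_le (x i) (y i : Completion X) (z : Completion X)
    have e3 := h1.1 (x i) (y i : Completion X)
    have e4 := h1.1 (y i : Completion X) (x i)
    simp only [id] at e3 e4
    rw [dist_comm (y i : Completion X)] at e4
    rw [h2] at e3 e4
    rw [dist_comm (x i) (z : Completion X), dist_comm (y i : Completion X) (z : Completion X), e1,
      abs_le] at e2
    have := hy i
    rw [abs_le]
    constructor <;> linarith [e2.1, e2.2]

end Compl

section Exact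

variable {X : Type} [MetricSpace X] [CompleteSpace X]

/-- In complete spaces the approximate extension property implies the exact one. -/
theorem AEP.ep (h : AEP X) : EP X := by
  intro ι _ x φ hk
  rcases isEmpty_or_nonempty ι with hι | hι
  · obtain ⟨z, -⟩ := h ι x φ hk 1 one_pos
    exact ⟨z, fun i => hι.elim i⟩
  have := Fintype.ofFinite ι
  let dev : X → ℝ := fun z => Finset.univ.sup' Finset.univ_nonempty fun i => |dist z (x i) - φ i|
  have hdev : ∀ z i, |dist z (x i) - φ i| ≤ dev z := fun z i =>
    Finset.le_sup' (fun i => |dist z (x i) - φ i|) (Finset.mem_univ i)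
  have hdev' : ∀ z, ∃ i, dev z = |dist z (x i) - φ i| := by
    intro z
    obtain ⟨i, -, hi⟩ := Finset.exists_mem_eq_sup' (s := Finset.univ) Finset.univ_nonempty
      (fun i => |dist z (x i) - φ i|)
    exact ⟨i, hi⟩
  have step : ∀ (z : X) (ε : ℝ), 0 < ε → ∃ z', dev z' ≤ ε ∧ dist z z' ≤ dev z + ε := by
    intro z ε hε
    have hk2 : KatAt (fun o : Option ι => o.elim z x) (fun o => o.elim (dev z) φ) := by
      have a1 : ∀ i, dev z ≤ φ i + dist z (x i) := by
        intro i
        obtain ⟨j, hj⟩ := hdev' z
        rw [hj, abs_le]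
        have b1 := hk.1 j i
        have b2 := hk.2 j i
        have b3 := dist_triangle z (x i) (x j)
        rw [dist_comm (x i) (x j)] at b3
        have b4 := dist_triangle (x j) z (x i)
        rw [dist_comm (x j) z] at b4
        constructor <;> linarith
      have a2 : ∀ i, φ i ≤ dev z + dist z (x i) ∧ dist z (x i) ≤ dev z + φ i := by
        intro i
        have := abs_le.1 (hdev z i)
        constructor <;> linarith [this.1, this.2]
      have a3 : 0 ≤ dev z := by
        obtain ⟨j, hj⟩ := hdev' z
        rw [hj]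
        exact abs_nonneg _
      constructor
      · rintro (_ | i) (_ | j)
        · simp
        · simpa using a1 j
        · have := (a2 i).1
          rw [dist_comm] at this
          simpa using this
        · exact hk.1 i j
      · rintro (_ | i) (_ | j)
        · simpa using a3
        · exact (a2 j).2
        · have := (a2 i).2
          rw [dist_comm, add_comm] at this
          simpa using this
        · exact hk.2 i j
    obtain ⟨z', hz'⟩ := h (Option ι) _ _ hk2 ε hε
    refine ⟨z', ?_, ?_⟩
    · refine Finset.sup'_le _ _ fun i _ => hz' (some i)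
    · have := hz' none
      simp only [Option.elim_none] at this
      rw [dist_comm]
      linarith [(abs_le.1 this).2]
  obtain ⟨z0, hz0⟩ := h ι x φ hk 1 one_pos
  have hz0' : dev z0 ≤ 1 := Finset.sup'_le _ _ fun i _ => hz0 i
  choose g hg1 hg2 using step
  let zs : ℕ → X := fun n => Nat.rec z0 (fun n z => g z ((1 / 2) ^ (n + 1)) (by positivity)) n
  have hzs : ∀ n, dev (zs n) ≤ (1 / 2) ^ n := by
    intro n
    cases n with
    | zero =>
      rw [pow_zero]
      exact hz0'
    | succ n => exact hg1 _ _ _
  have hd : ∀ n, dist (zs n) (zs (n + 1)) ≤ 2 * (1 / 2) ^ n := by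
    intro n
    have h1 := hg2 (zs n) ((1 / 2) ^ (n + 1)) (by positivity)
    have h2 := hzs n
    have h3 : ((1 : ℝ) / 2) ^ (n + 1) ≤ (1 / 2) ^ n := by
      rw [pow_succ]
      have : (0 : ℝ) < (1 / 2) ^ n := by positivity
      linarith
    calc dist (zs n) (zs (n + 1)) ≤ dev (zs n) + (1 / 2) ^ (n + 1) := h1
      _ ≤ 2 * (1 / 2) ^ n := by linarith
  have hc : CauchySeq zs := cauchySeq_of_le_geometric (1 / 2) 2 (by norm_num) hd
  obtain ⟨z, hz⟩ := cauchySeq_tendsto_of_complete hc
  refine ⟨z, fun i => ?_⟩
  have h1 : Filter.Tendsto (fun n => |dist (zs n) (x i) - φ i|) Filter.atTop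
      (nhds |dist z (x i) - φ i|) := by
    have : Filter.Tendsto (fun n => dist (zs n) (x i)) Filter.atTop (nhds (dist z (x i))) :=
      hz.dist tendsto_const_nhds
    exact (this.sub_const _).abs
  have h2 : Filter.Tendsto (fun n : ℕ => ((1 : ℝ) / 2) ^ n) Filter.atTop (nhds 0) :=
    tendsto_pow_atTop_nhds_zero_of_lt_one (by norm_num) (by norm_num)
  have h3 : |dist z (x i) - φ i| ≤ 0 :=
    le_of_tendsto_of_tendsto' h1 h2 fun n => (hdev (zs n) i).trans (hzs n)
  have h4 := abs_nonneg (dist z (x i) - φ i)
  have h5 : |dist z (x i) - φ i| = 0 := le_antisymm h3 h4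
  rw [abs_eq_zero] at h5
  linarith

end Exact

end Pool.Agent.Helper89.UG
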